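import Pool.Agent.W2helper24.TQ.Fin3
import Pool.Agent.W2helper24.TQ.All3
import Pool.Agent.W2helper71.TQ.H8

/-!
# The 3-part of the Birch and Swinnerton-Dyer formula for the cubic twists `y² = x³ - D²`, without
# exceptions

`E_D : y² = x³ - D²`.  The number `D > 0` is in the class if its prime factors are `7` modulo `12`, it is not
divisible by the cube of a prime, and `D` is `1` or `-1` modulo `9`; there are at least
`c X / (log X)^(3/4)` such numbers up to `X`.  For ALL `D` in the class the equation is minimal, `L(E_D, s)`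
is entire, `L(E_D, 1) ≠ 0`, the group `E_D(ℚ)` is finite of order prime to three, `Ш(E_D)` has no element of
order three, the Tamagawa numbers are prime to three, and the quotient
`x = L(E_D, 1) t² / (Ω ∏ c_p)`, which according to the formula is the order of `Ш(E_D)`, is a root of a
polynomial with integral coefficients whose leading and constant coefficients are not divisible by three:
it is an algebraic number and a unit at all the places above three (the number `x` is rational by a
theorem of Damerell, Shimura and Manin; here it is not used).  So the 3-part of the formula holds, with no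
hypothesis, for every curve of the family.

The same is proved (`over_Omega` below) for `E_1 : y² = x³ - 1` over EVERY number field `k` contained in the infinite extension
`Ω` of `ℚ` generated by `√-3`, by the cube roots of all the numbers of the class, and by all the numbers of
degree `3^n` over `ℚ` in the cyclotomic fields `ℚ(ζ_m)`, where the prime factors of `m` are `7` modulo `12`.

The curves `E_D` are the twists by `-1` of the curves `y² = x³ + D²`; they are not among the cubic twists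
`y² + D y = x³` (of `x³ + y³ = D`) of the earlier results, where the 3-part depends on the cubic residue
symbols between the prime factors of `D`.

The proof.  Analytic side: `L(E_D, s) = L(ψ η, s)`, `ψ` the Hecke character of `E_1`, of conductor `4 √-3`,
`η` the cubic residue character of `D` (cubic reciprocity).  `L(ψ η, 1) / Ω` is a sum of values of elliptic
functions at torsion points; the translates by the kernel of `√-3` are grouped, and modulo the primes above
three the sum does not depend on `η`, and for `η = 1` it is a unit.  Algebraic side: over `F = ℚ(√-3, ∛D)`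
the curve is isomorphic to `E_1`.  In the descent with the isogeny of degree three with the kernel
generated by `(0, i)` the Selmer group is contained in the kernel of the norm from `F(i)` to `F`, and a
nontrivial element would give, because the 3-group `Gal(F/ℚ(√-3))` has a fixed vector, a unit of `ℚ(ζ₁₂)`
modulo cubes; the local condition at three excludes all of them.

Joint work of the seats 2, 8, 10, 12, 14, 15, 17, 19, 22, 24, 33, 53, 54, 55, 60, 66, 68, 71, 73, 84, 89, 92,
93, 95, 99 (modules `W2helper*/TQ`).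
-/

set_option autoImplicit false

open NumberField NumberField.InfinitePlace IsDedekindDomain WeierstrassCurve MeasureTheory

namespace Pool.Agent.Results.MP_9c97e9_nt.CubicTwistsThreePart

open scoped Classical

open Pool.Agent.TH841.NF.D (Sha)

/-- The curve `E_D : y² = x³ - D²`. -/
def curve (D : ℕ) : WeierstrassCurve ℤ := ⟨0, 0, 0, 0, -(D : ℤ) ^ 2⟩

/-- The curve given by the equation of `W` over the ring `R`. -/
abbrev base (W : WeierstrassCurve ℤ) (R : Type) [CommRing R] : WeierstrassCurve R :=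
  W.map (Int.castRingHom R)

/-- The number of the affine points `(x, y)` over the ring `R`. -/
noncomputable def pts (W : WeierstrassCurve ℤ) (R : Type) [CommRing R] : ℕ :=
  Nat.card {P : R × R // (base W R).toAffine.Equation P.1 P.2}

section

variable {k : Type} [Field k] [NumberField k]

/-- `a_v = N v + 1 - #W(k_v)`, the points over the residue field `k_v` counted with the point at
infinity. -/
noncomputable def a (W : WeierstrassCurve ℤ) (v : HeightOneSpectrum (𝓞 k)) : ℤ :=
  (Ideal.absNorm v.asIdeal : ℤ) - pts W (𝓞 k ⧸ v.asIdeal)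

/-- The Euler factor of `L(W/k, s)` at `v` : `(1 - a_v N v^(-s) + N v^(1 - 2 s))⁻¹` if the
discriminant is a unit at `v`, and `(1 - a_v N v^(-s))⁻¹` otherwise. -/
noncomputable def factor (W : WeierstrassCurve ℤ) (s : ℂ) (v : HeightOneSpectrum (𝓞 k)) : ℂ :=
  (1 - (a W v : ℂ) * (Ideal.absNorm v.asIdeal : ℂ) ^ (-s) +
    if ((W.Δ : ℤ) : 𝓞 k) ∈ v.asIdeal then 0 else (Ideal.absNorm v.asIdeal : ℂ) ^ (1 - 2 * s))⁻¹

/-- `E⁰(k_v)`, the group of the points of `W` over the completion `k_v` with nonsingular reduction: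
the points `(x, y)` where `x` is not integral, or one of the partial derivatives of
`y² + a₁ x y + a₃ y - x³ - a₂ x² - a₄ x - a₆` is a unit at `(x, y)`, and the point at infinity. -/
noncomputable def nonsing (W : WeierstrassCurve ℤ) (v : HeightOneSpectrum (𝓞 k)) :
    AddSubgroup (base W (v.adicCompletion k)).toAffine.Point :=
  AddSubgroup.closure {P | ∀ x y h, P = Affine.Point.some x y h →
    1 < Valued.v x ∨ Valued.v ((base W (v.adicCompletion k)).a₁ * y -
      (3 * x ^ 2 + 2 * (base W (v.adicCompletion k)).a₂ * x + (base W (v.adicCompletion k)).a₄)) = 1 ∨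
      Valued.v (2 * y + (base W (v.adicCompletion k)).a₁ * x +
        (base W (v.adicCompletion k)).a₃) = 1}

/-- The Tamagawa number `c_v = [E(k_v) : E⁰(k_v)]` of a minimal equation. -/
noncomputable def c (W : WeierstrassCurve ℤ) (v : HeightOneSpectrum (𝓞 k)) : ℕ :=
  (nonsing W v).index

end

/-- `4 x³ + b₂ x² + 2 b₄ x + b₆ = (2 y + a₁ x + a₃)²`. -/
def cubic (W : WeierstrassCurve ℤ) {R : Type} [CommRing R] (x : R) : R :=
  4 * x ^ 3 + W.b₂ * x ^ 2 + 2 * W.b₄ * x + W.b₆

/-- `Ω = ∫_{W(ℝ)} |ω|` with `ω = dx / (2 y + a₁ x + a₃)`, as an integral over `x`: two real points lie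
over each `x` with `cubic x > 0`. -/
noncomputable def realPeriod (W : WeierstrassCurve ℤ) : ℝ :=
  2 * ∫ x in {x : ℝ | 0 < cubic W x}, 1 / √(cubic W x)

/-- `Λ` is the lattice of the periods of `ω` on `W(ℂ)`: its invariants are `g₂ = c₄ / 12` and
`g₃ = c₆ / 216`. -/
def IsPeriodLattice (W : WeierstrassCurve ℤ) (Λ : PeriodPair) : Prop :=
  Λ.g₂ = (W.c₄ : ℂ) / 12 ∧ Λ.g₃ = (W.c₆ : ℂ) / 216

/-- Twice the area of a fundamental parallelogram of `Λ`, the period at the complex places. -/
noncomputable def complexPeriod (Λ : PeriodPair) : ℝ := 2 * |((starRingEnd ℂ) Λ.ω₁ * Λ.ω₂).im|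

/-- `x` is a root of a polynomial with integral coefficients whose leading coefficient and constant
coefficient are not divisible by three: `x` is an algebraic number, and a unit at all the places above
three. -/
def UnitAtThree (x : ℂ) : Prop :=
  ∃ p : Polynomial ℤ, Polynomial.aeval x p = 0 ∧ ¬ (3 : ℤ) ∣ p.leadingCoeff ∧ ¬ (3 : ℤ) ∣ p.coeff 0

section

variable (k : Type) [Field k] [NumberField k]

/-- The product of the Tamagawa numbers. -/
noncomputable def Tam (W : WeierstrassCurve ℤ) : ℕ := ∏ᶠ v : HeightOneSpectrum (𝓞 k), c W v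

/-- The torsion points over `k`. -/
def tors (W : WeierstrassCurve ℤ) : Set (base W k).toAffine.Point := {P | ∃ n : ℕ, 0 < n ∧ n • P = 0}

/-- The rank of the group of the points over `k`. -/
noncomputable def rank (W : WeierstrassCurve ℤ) : ℕ := Module.finrank ℤ (base W k).toAffine.Point

/-- The 3-part of the Birch and Swinnerton-Dyer formula over `k`, with rank zero: the equation is minimal
at all the finite places; `L` is equal to `L(W/k, s)` for `Re s > 3 / 2` and does not vanish at `1`; the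
rank is zero; `Ш(W/k)` has no elements of order a power of three but zero; and the number
`x = L(1) √|disc k| t² / (Ω^r₁ Ω_ℂ^r₂ ∏ c_v)` is a unit at three (`t` is the number of the torsion points,
`r₁` and `r₂` are the numbers of the real and the complex places). -/
def ThreePart (W : WeierstrassCurve ℤ) (L : ℂ → ℂ) : Prop :=
  (∀ v : HeightOneSpectrum (𝓞 k),
    IsMinimal (v.adicCompletionIntegers k) ((base W k).baseChange (v.adicCompletion k))) ∧
  {v : HeightOneSpectrum (𝓞 k) | c W v ≠ 1}.Finite ∧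
  0 < realPeriod W ∧ 0 < Tam k W ∧ 0 < Nat.card (tors k W) ∧
  (∀ s : ℂ, 3 / 2 < s.re → HasProd (factor (k := k) W s) (L s)) ∧ L 1 ≠ 0 ∧
  rank k W = 0 ∧ (∀ (n : ℕ) (x : Sha (base W k)), 3 ^ n • x = 0 → x = 0) ∧
  ∃ Λ : PeriodPair, IsPeriodLattice W Λ ∧
    UnitAtThree (L 1 * ((√|(discr k : ℝ)| : ℝ) : ℂ) * (Nat.card (tors k W) : ℂ) ^ 2 /
      ((realPeriod W : ℂ) ^ nrRealPlaces k * (complexPeriod Λ : ℂ) ^ nrComplexPlaces k *
        (Tam k W : ℂ)))

end

/-- The number `D` is positive, not divisible by the cube of a prime, its prime factors are `7` modulo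
`12`, and it is `1` or `-1` modulo `9`. -/
def Class (D : ℕ) : Prop :=
  0 < D ∧ (∀ p : ℕ, p.Prime → p ∣ D → p % 12 = 7 ∧ ¬ p ^ 3 ∣ D) ∧ (D % 9 = 1 ∨ D % 9 = 8)

/-- The prime factors of `m > 0` are `7` modulo `12`. -/
def Conductor (m : ℕ) : Prop := 0 < m ∧ ∀ q : ℕ, q.Prime → q ∣ m → q % 12 = 7

/-- The field `Ω`, the subfield of `ℂ` generated by `√-3`, by all the cube roots of the numbers of the
class, and by all the numbers `z` of degree `3^n` over `ℚ`, for some `n`, that are contained in the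
cyclotomic field of order `m` for some `m` whose prime factors are `7` modulo `12`. -/
noncomputable def Omega : IntermediateField ℚ ℂ :=
  IntermediateField.adjoin ℚ ({z : ℂ | z ^ 2 = -3} ∪
    ({z : ℂ | ∃ D : ℕ, Class D ∧ z ^ 3 = D} ∪
    {z : ℂ | (∃ n, (minpoly ℚ z).natDegree = 3 ^ n) ∧
      ∃ m, Conductor m ∧ z ∈ IntermediateField.adjoin ℚ {ζ : ℂ | ζ ^ m = 1}}))

open Pool.Agent.W2helper24.TQ

lemma b2 (D : ℕ) : (curve D).b₂ = 0 := by simp [curve, WeierstrassCurve.b₂]

lemma b4 (D : ℕ) : (curve D).b₄ = 0 := by simp [curve, WeierstrassCurve.b₄]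

lemma b6 (D : ℕ) : (curve D).b₆ = -4 * (D : ℤ) ^ 2 := by
  simp only [curve, WeierstrassCurve.b₆]
  ring

lemma c4 (D : ℕ) : (curve D).c₄ = 0 := by
  rw [WeierstrassCurve.c₄, b2, b4]
  ring

lemma c6 (D : ℕ) : (curve D).c₆ = 864 * (D : ℤ) ^ 2 := by
  rw [WeierstrassCurve.c₆, b2, b4, b6]
  ring

lemma disc (D : ℕ) : (curve D).Δ = -432 * (D : ℤ) ^ 4 := by
  simp only [curve, WeierstrassCurve.Δ, WeierstrassCurve.b₂, WeierstrassCurve.b₄,
    WeierstrassCurve.b₆, WeierstrassCurve.b₈]
  ring

lemma base_eq (D : ℕ) (R : Type) [CommRing R] : base (curve D) R = ED D R := by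
  unfold base curve ED WeierstrassCurve.map
  ext <;> simp

lemma ED_one (R : Type) [CommRing R] : ED 1 R = Em R := by
  unfold ED Em
  simp

lemma pts_eq (D : ℕ) (R : Type) [CommRing R] :
    pts (curve D) R = Nat.card {P : R × R // P.2 ^ 2 = P.1 ^ 3 - (D : R) ^ 2} := by
  unfold pts
  refine Nat.card_congr (Equiv.subtypeEquivRight fun P => ?_)
  rw [base_eq, WeierstrassCurve.Affine.equation_iff]
  simp only [ED]
  constructor
  · intro h
    linear_combination h
  · intro h
    linear_combination h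

lemma disc_mem {k : Type} [Field k] [NumberField k] {D : ℕ} (v : HeightOneSpectrum (𝓞 k)) :
    (((curve D).Δ : ℤ) : 𝓞 k) ∈ v.asIdeal ↔ ((6 * D : ℕ) : 𝓞 k) ∈ v.asIdeal := by
  have h2 : (((curve D).Δ : ℤ) : 𝓞 k) = -(6 ^ 3 * 2 * (D : 𝓞 k) ^ 4) := by
    rw [disc]
    push_cast
    ring
  rw [h2, neg_mem_iff]
  push_cast
  constructor
  · intro h
    rcases v.isPrime.mem_or_mem h with h | h
    · refine Ideal.mul_mem_right _ _ ?_
      rcases v.isPrime.mem_or_mem h with h | h
      · exact v.isPrime.mem_of_pow_mem 3 h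
      · rw [show (6 : 𝓞 k) = 2 * 3 by norm_num]
        exact Ideal.mul_mem_right _ _ h
    · exact Ideal.mul_mem_left _ _ (v.isPrime.mem_of_pow_mem 4 h)
  · intro h
    rcases v.isPrime.mem_or_mem h with h | h
    · exact Ideal.mul_mem_right _ _ (Ideal.mul_mem_right _ _ (Ideal.pow_mem_of_mem _ h 3 (by norm_num)))
    · exact Ideal.mul_mem_left _ _ (Ideal.pow_mem_of_mem _ h 4 (by norm_num))

lemma absNorm_eq {k : Type} [Field k] [NumberField k] (v : HeightOneSpectrum (𝓞 k)) :
    Ideal.absNorm v.asIdeal = Nat.card (𝓞 k ⧸ v.asIdeal) := by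
  rw [Ideal.absNorm_apply, Submodule.cardQuot_apply]

/-- the Euler factors over `ℚ` -/
lemma factor_Q (D : ℕ) (s : ℂ) (v : HeightOneSpectrum (𝓞 ℚ)) :
    factor (curve D) s v = facQ D (Rat.HeightOneSpectrum.primesEquiv v : Nat.Primes) s := by
  obtain ⟨e⟩ := quot_equiv v
  have hpr : Fact (Nat.Prime ((Rat.HeightOneSpectrum.primesEquiv v : Nat.Primes) : ℕ)) :=
    ⟨(Rat.HeightOneSpectrum.primesEquiv v).2⟩
  have h1 : pts (curve D) (𝓞 ℚ ⧸ v.asIdeal) = Nat.card
      {P : ZMod (Rat.HeightOneSpectrum.primesEquiv v : Nat.Primes) ×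
        ZMod (Rat.HeightOneSpectrum.primesEquiv v : Nat.Primes) // P.2 ^ 2 = P.1 ^ 3 -
        (D : ZMod (Rat.HeightOneSpectrum.primesEquiv v : Nat.Primes)) ^ 2} := by
    rw [pts_eq]
    exact pts_congr e D
  unfold factor facQ
  rw [a, absNorm_eq, card_quot, disc_mem, mem_v_iff, h1]
  by_cases h6 : ((Rat.HeightOneSpectrum.primesEquiv v : Nat.Primes) : ℕ) ∣ 6 * D
  · rw [if_pos h6, if_pos h6, pts_bad h6, sub_self]
    simp
  · rw [if_neg h6, if_neg h6]

lemma factor_one {k : Type} [Field k] [NumberField k] (s : ℂ) (v : HeightOneSpectrum (𝓞 k)) :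
    factor (curve 1) s v = fac v s := by
  have hN : Ideal.absNorm v.asIdeal = nmF v := absNorm_eq v
  have hp : pts (curve 1) (𝓞 k ⧸ v.asIdeal) = ptsF v := by
    rw [pts_eq]
    unfold ptsF
    simp
  unfold factor fac facD
  rw [a, hN, hp, disc_mem]
  have e6 : ((6 * 1 : ℕ) : 𝓞 k) = 6 := by norm_num
  rw [e6]
  by_cases h6 : (6 : 𝓞 k) ∈ v.asIdeal
  · rw [if_pos h6, if_pos h6]
    have h1 : ptsF v = nmF v := by
      unfold ptsF nmF
      have : v.asIdeal.IsMaximal := v.isMaximal
      let := Ideal.Quotient.field v.asIdeal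
      have : Finite (𝓞 k ⧸ v.asIdeal) := Ideal.finiteQuotientOfFreeOfNeBot v.asIdeal v.ne_bot
      have h2 : (2 : 𝓞 k) ∈ v.asIdeal ∨ (3 : 𝓞 k) ∈ v.asIdeal := by
        refine v.isPrime.mem_or_mem ?_
        rw [show (2 : 𝓞 k) * 3 = 6 by norm_num]
        exact h6
      rcases h2 with h2 | h2
      · have h3 : (2 : 𝓞 k ⧸ v.asIdeal) = 0 := by
          have := (Ideal.Quotient.eq_zero_iff_mem).2 h2
          rwa [map_ofNat] at this
        exact pts_two h3 1
      · have h3 : (3 : 𝓞 k ⧸ v.asIdeal) = 0 := by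
          have := (Ideal.Quotient.eq_zero_iff_mem).2 h2
          rwa [map_ofNat] at this
        exact pts_three h3 1
    rw [h1, sub_self]
    simp
  · rw [if_neg h6, if_neg h6]

lemma cubic_eq (D : ℕ) (x : ℝ) : cubic (curve D) x = 4 * (x ^ 3 - (D : ℝ) ^ 2) := by
  rw [cubic, b2, b4, b6]
  push_cast
  ring

lemma realPeriod_eq (D : ℕ) : realPeriod (curve D) =
    2 * ∫ x in {x : ℝ | 0 < x ^ 3 - (D : ℝ) ^ 2}, 1 / (2 * √(x ^ 3 - (D : ℝ) ^ 2)) := by
  unfold realPeriod
  have h1 : {x : ℝ | 0 < cubic (curve D) x} = {x : ℝ | 0 < x ^ 3 - (D : ℝ) ^ 2} := by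
    ext x
    rw [Set.mem_ofPred_eq, Set.mem_ofPred_eq, cubic_eq]
    constructor <;> intro h <;> linarith
  rw [h1]
  congr 1
  refine integral_congr_ae (Filter.Eventually.of_forall fun x => ?_)
  show 1 / √(cubic (curve D) x) = 1 / (2 * √(x ^ 3 - (D : ℝ) ^ 2))
  rw [cubic_eq, Real.sqrt_mul (by norm_num), show (4 : ℝ) = 2 ^ 2 by norm_num,
    Real.sqrt_sq (by norm_num)]

lemma lattice_iff (D : ℕ) (Λ : PeriodPair) :
    IsPeriodLattice (curve D) Λ ↔ Λ.g₂ = 0 ∧ Λ.g₃ = 4 * (D : ℂ) ^ 2 := by
  unfold IsPeriodLattice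
  rw [c4, c6]
  push_cast
  constructor
  · rintro ⟨h1, h2⟩
    exact ⟨by rw [h1]; norm_num, by rw [h2]; ring⟩
  · rintro ⟨h1, h2⟩
    exact ⟨by rw [h1]; norm_num, by rw [h2]; ring⟩

section

variable {k : Type} [Field k] [NumberField k]

lemma rank_zero {D : ℕ} (h : Finite (ED D k).toAffine.Point) : rank k (curve D) = 0 := by
  unfold rank
  rw [base_eq]
  exact Module.finrank_eq_zero_of_rank_eq_zero (rank_eq_zero_iff.2 fun x => by
    obtain ⟨n, hn, hx⟩ := isOfFinAddOrder_iff_nsmul_eq_zero.1 (isOfFinAddOrder_of_finite x)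
    exact ⟨n, by exact_mod_cast hn.ne', by rw [natCast_zsmul]; exact hx⟩)

lemma card_tors {D : ℕ} (h : Finite (ED D k).toAffine.Point) :
    Nat.card (tors k (curve D)) = Nat.card (ED D k).toAffine.Point := by
  rw [← base_eq] at h ⊢
  have h1 : tors k (curve D) = Set.univ := by
    rw [Set.eq_univ_iff_forall]
    intro x
    obtain ⟨n, hn, hx⟩ := isOfFinAddOrder_iff_nsmul_eq_zero.1 (isOfFinAddOrder_of_finite x)
    exact ⟨n, hn, hx⟩
  rw [h1]
  exact Nat.card_univ

lemma sha_pow {D : ℕ} (h : ∀ x : Sha (ED D k), 3 • x = 0 → x = 0) (n : ℕ)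
    (x : Sha (base (curve D) k)) (hx : 3 ^ n • x = 0) : x = 0 := by
  rw [← base_eq] at h
  induction n with
  | zero => rwa [pow_zero, one_smul] at hx
  | succ n ih =>
    refine ih (h _ ?_)
    rw [← mul_smul, ← pow_succ']
    exact hx

/-- the assembly -/
lemma assemble {D : ℕ} (hD : 0 < D) {L : ℂ → ℂ}
    (hmin : ∀ v : HeightOneSpectrum (𝓞 k),
      IsMinimal (v.adicCompletionIntegers k) ((ED D k).baseChange (v.adicCompletion k)) ∧
      ∃ H : AddSubgroup ((ED D k).baseChange (v.adicCompletion k)).toAffine.Point,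
        (∀ P, P ∈ H ↔ Pool.Agent.Y696.NonsingRed Valued.v
          ((ED D k).baseChange (v.adicCompletion k)) P) ∧ H.index ≠ 0 ∧ ¬ 3 ∣ H.index)
    (hprod : ∀ s : ℂ, 3 / 2 < s.re → HasProd (factor (k := k) (curve D) s) (L s)) (h1 : L 1 ≠ 0)
    (hfin : Finite (ED D k).toAffine.Point) (hcard : ¬ 3 ∣ Nat.card (ED D k).toAffine.Point)
    (hsha : ∀ x : Sha (ED D k), 3 • x = 0 → x = 0)
    {Λ : PeriodPair} (hΛ : IsPeriodLattice (curve D) Λ) (hΩ : 0 < realPeriod (curve D))
    (hval : ∀ (Γ : Type) [LinearOrderedCommGroupWithZero Γ] (v : Valuation ℂ Γ), v 3 < 1 →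
      v (L 1 * ((√|(discr k : ℝ)| : ℝ) : ℂ) / ((realPeriod (curve D) : ℂ) ^ nrRealPlaces k *
        (complexPeriod Λ : ℂ) ^ nrComplexPlaces k)) = 1) :
    ThreePart k (curve D) L := by
  have hidx : ∀ v : HeightOneSpectrum (𝓞 k), (Nsg D v).index ≠ 0 ∧ ¬ 3 ∣ (Nsg D v).index := by
    intro v
    obtain ⟨-, H, h2, h3, h4⟩ := hmin v
    have h5 := index_Nsg D v ((ED D k).baseChange (v.adicCompletion k)) (by
      unfold ED WeierstrassCurve.baseChange WeierstrassCurve.map
      ext <;> simp) H h2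
    rw [h5]
    exact ⟨h3, h4⟩
  obtain ⟨t1, t2⟩ := tam_C D hD hidx
  have hT : Tam k (curve D) = TamC k D := rfl
  have hpos : 0 < Nat.card (ED D k).toAffine.Point := Nat.card_pos
  refine ⟨fun v => ?_, finite_index D hD, hΩ, by rw [hT]; exact t1, by rw [card_tors hfin]; exact hpos,
    hprod, h1, rank_zero hfin, sha_pow hsha, Λ, hΛ, ?_⟩
  · rw [base_eq]
    exact (hmin v).1
  · refine exists_poly fun Γ _ v hv => ?_
    rw [card_tors hfin, hT]
    have e1 := hval Γ v hv
    have e2 := v_nat_three (v := v) hv hcard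
    have e3 := v_nat_three (v := v) hv t2
    rw [map_div₀] at e1 ⊢
    rw [map_mul, map_pow, e2, one_pow, mul_one, Valuation.map_mul v _ (TamC k D : ℂ), e3, mul_one]
    exact e1

end

lemma nr_Q : nrRealPlaces ℚ = 1 ∧ nrComplexPlaces ℚ = 0 := by
  have h1 := IsTotallyReal.nrComplexPlaces_eq_zero ℚ
  have h2 := card_add_two_mul_card_eq_rank ℚ
  rw [h1, mul_zero, add_zero, Module.finrank_self] at h2
  exact ⟨h2, h1⟩

/-- the theorem over `ℚ` -/
lemma main_Q {D : ℕ} (hD : Class D) :
    ∃ L : ℂ → ℂ, Differentiable ℂ L ∧ ThreePart ℚ (curve D) L := by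
  have hD' : DCls D := hD
  obtain ⟨L, h1, h2, h3, h4⟩ := H3 D hD'
  obtain ⟨⟨Λ, ω, g1, g2, g3⟩, g4⟩ := H7 D hD.1
  obtain ⟨a1, a2, a3⟩ := H6 D hD'
  have hω : ω = realPeriod (curve D) := by rw [g4 Λ ω g1 g2 g3, realPeriod_eq]
  refine ⟨L, h1, assemble hD.1 (H5 D hD') (fun s hs => ?_) h3 a1 a2
    (fun x hx => a3 1 x (by rwa [pow_one])) ((lattice_iff D Λ).2 ⟨g1, g2⟩) (hω ▸ g3.1.1) ?_⟩
  · exact hasProd_Q (fun v => factor_Q D s v) (h2 s hs)
  · intro Γ _ v hv
    have e1 := h4 Λ ω g1 g2 g3 Γ v hv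
    rw [nr_Q.1, nr_Q.2, pow_one, pow_zero, mul_one, Rat.numberField_discr, Int.cast_one, abs_one,
      Real.sqrt_one, Complex.ofReal_one, mul_one, ← hω]
    exact e1

/-- the theorem over the subfields of `Ω` -/
lemma main_k (k : IntermediateField ℚ ℂ) [NumberField k] (hk : k ≤ Omega) :
    ∃ L : ℂ → ℂ, MeromorphicOn L Set.univ ∧ AnalyticAt ℂ L 1 ∧ ThreePart k (curve 1) L := by
  obtain ⟨⟨L, b1, b2, b3, b4, b5⟩, ⟨a1, a2, a3⟩, h3⟩ := out_Om E7 k hk
  obtain ⟨⟨Λ, ω, g1, g2, g3⟩, g4⟩ := H7 1 one_pos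
  have hω : ω = realPeriod (curve 1) := by rw [g4 Λ ω g1 g2 g3, realPeriod_eq]
  rw [← ED_one] at a1 a2 a3
  have h3' : ∀ v : HeightOneSpectrum (𝓞 k),
      IsMinimal (v.adicCompletionIntegers k) ((ED 1 k).baseChange (v.adicCompletion k)) ∧
      ∃ H : AddSubgroup ((ED 1 k).baseChange (v.adicCompletion k)).toAffine.Point,
        (∀ P, P ∈ H ↔ Pool.Agent.Y696.NonsingRed Valued.v
          ((ED 1 k).baseChange (v.adicCompletion k)) P) ∧ H.index ≠ 0 ∧ ¬ 3 ∣ H.index := by
    rw [ED_one]
    exact h3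
  refine ⟨L, b1, b3, assemble one_pos h3' (fun s hs => ?_) b4 a1 a2 a3
    ((lattice_iff 1 Λ).2 ⟨g1, g2⟩) (hω ▸ g3.1.1) ?_⟩
  · have h5 : factor (k := k) (curve 1) s = fun w => fac w s := funext fun w => factor_one s w
    rw [h5]
    exact b2 s hs
  · intro Γ _ v hv
    rw [← hω]
    exact b5 Λ ω g1 (by rw [g2]; norm_num) g3 Γ v hv

/-- **Main theorem.**  For all `D` in the class `L(E_D, s)` is entire and the 3-part of the Birch and
Swinnerton-Dyer formula holds for the curve `E_D : y² = x³ - D²` over `ℚ`, with `L(E_D, 1) ≠ 0` and rank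
zero; and there are at least `c X / (log X)^(3/4)` numbers `D ≤ X` in the class. -/
theorem result :
    (∀ D : ℕ, Class D → ∃ L : ℂ → ℂ, Differentiable ℂ L ∧ ThreePart ℚ (curve D) L) ∧
    (∃ c : ℝ, 0 < c ∧ ∃ X₀ : ℕ, ∀ X : ℕ, X₀ ≤ X →
      c * (X / (Real.log X) ^ ((3 : ℝ) / 4)) ≤
        (((Finset.Icc 1 X).filter fun D => Class D).card : ℝ)) :=
  ⟨fun _ hD => main_Q hD, Pool.Agent.W2helper71.TQ.piece⟩

/-- The same for `E_1` over number fields.  For every number field `k` contained in the field `Ω` generated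
by `√-3`, by the cube roots of all the numbers of the class and by all the numbers of degree `3^n` in the
cyclotomic fields of order composed of primes that are `7` modulo `12`, `L(E_1/k, s)` is meromorphic on `ℂ`
and analytic at `1`, and the 3-part of the formula holds for `E_1` over `k`, with `L(E_1/k, 1) ≠ 0` and rank
zero. -/
theorem over_Omega (k : IntermediateField ℚ ℂ) [NumberField k] (hk : k ≤ Omega) :
    ∃ L : ℂ → ℂ, MeromorphicOn L Set.univ ∧ AnalyticAt ℂ L 1 ∧ ThreePart k (curve 1) L :=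
  main_k k hk

end Pool.Agent.Results.MP_9c97e9_nt.CubicTwistsThreePart
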