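import Pool.Agent.W2helper41.N.Num
import Pool.Agent.W2helper41.L.Frm
import Pool.Agent.W2helper41.X.Odd

/-!
# The Birch and Swinnerton-Dyer formula modulo two over the layers of the cyclotomic `ℤ₃`-extension for
# the quadratic twists of `X_0(14)` by all the products of inert primes and of at most two split primes

`E_D` is the quadratic twist by `D` of the modular curve `X_0(14)`; the curves have no complex
multiplication.  A prime is inert if it is `5` modulo `8` and not a square modulo `7`, and split if it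
is `1` modulo `8` and a square modulo `7`.  Let `D` be a product of distinct inert and split primes, at
most two of them split.  `K` is `ℚ` or a subfield of odd degree of the field of the `q`-th roots of unity,
`q` a power of a prime not dividing `14 D`, in which the SPLIT prime factors of `D` are inert; and `q` is
a power of three or `2` and `7` are inert in `K` and the narrow class number of `K` is odd.  The inert
prime factors of `D` may decompose in `K` in any way (in the earlier results they had to be inert in `K`);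
then the Tamagawa numbers and the central value are divisible by high powers of two.

`L(E_D/K, s)` is entire, and the value predicted by the formula for the order of `Ш(E_D/K)`,
`x = √|disc K| L(E_D/K, 1) t² / (Ω ∏ c_v)`, is a rational number with odd denominator, whose numerator is
odd if and only if `E_D(K)` has rank zero and `Ш(E_D/K)` has no element of order two.  It is odd for all
these `K` or even for all these `K`.

* If `D` has no split prime factor, `x` is odd, `E_D(K)` has rank zero and `Ш(E_D/K)` has no element of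
  order two: the 2-part of the formula holds with a nonzero central value, for `K = ℚ` and for EVERY
  layer `K` of the cyclotomic `ℤ₃`-extension of `ℚ`, for the twists by EVERY product of inert primes.
* The same holds for exactly half of the `D` with one or with two split prime factors from a set `S` and
  any number of inert prime factors from `S`, ordered by size, and for the other half `x` is even, and
  `E_D(K)` has positive rank or `Ш(E_D/K)` has an element of order two, for all these fields `K`.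
  `S` can be the set of ALL the inert primes and of the split primes that are `2`, `4`, `5` or `7` modulo
  `9` (then all the layers of the cyclotomic `ℤ₃`-extension are such fields `K`).

The proof.  Let `χ` be a character of `Gal(K/ℚ)`, not trivial, and `t` the number of the inert primes
that divide `D` at which `χ` is trivial.  The twisted sum of the modular symbols that gives
`L(E_D, χ, 1)` is `2^t` times a number that is a unit at all the places above two; on the other side stand
the Tamagawa numbers `2` at the places above the inert primes.  Algebraic side: descent with the isogenies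
of degree two.  Statistics: for each set of inert primes, the other prime factors of `D` being the `k`
split ones and the largest inert one, the matrix of residue symbols is equidistributed by the quadratic
large sieve in boxes (library), uniformly in the set.
-/

set_option autoImplicit false

open NumberField NumberField.InfinitePlace IsDedekindDomain WeierstrassCurve MeasureTheory Filter
  Topology Finset

namespace Pool.Agent.Results.MP_9c97e9_nt.FormulaAllInertOverLayers

open scoped Classical

open Pool.Agent.TH841.NF.D (Sha)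

open Pool.Agent.Y682 (NCl)

/-- The quadratic twist `E_D` of `X_0(14)` (`D = 1` modulo `4`), with its global minimal equation
`y² + x y + y = x³ + ((D - 1)/4) x² + ((9 D² - 1)/2) x - (23 D³ + 1)/4`.  It is isomorphic to
`Y² = X (X² + 13 D X + 128 D²)` by `X = 4 (x - D)`, `Y = 4 (2 y + x + 1)`. -/
def twist (D : ℤ) : WeierstrassCurve ℤ :=
  ⟨1, (D - 1) / 4, 1, (9 * D ^ 2 - 1) / 2, -((23 * D ^ 3 + 1) / 4)⟩

/-- The curve given by the equation of `W` over the ring `R`. -/
abbrev base (W : WeierstrassCurve ℤ) (R : Type) [CommRing R] : WeierstrassCurve R :=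
  W.map (Int.castRingHom R)

/-- The number of the affine points `(x, y)` over the ring `R`. -/
noncomputable def pts (W : WeierstrassCurve ℤ) (R : Type) [CommRing R] : ℕ :=
  Nat.card {P : R × R // (base W R).toAffine.Equation P.1 P.2}

section

variable {K : Type} [Field K] [NumberField K]

/-- `a_v = N v + 1 - #W(k_v)`, the points over the residue field `k_v` counted with the point at
infinity. -/
noncomputable def a (W : WeierstrassCurve ℤ) (v : HeightOneSpectrum (𝓞 K)) : ℤ :=
  (Ideal.absNorm v.asIdeal : ℤ) - pts W (𝓞 K ⧸ v.asIdeal)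

/-- The Euler factor of `L(W/K, s)` at `v` : `(1 - a_v N v^(-s) + N v^(1 - 2 s))⁻¹` if the
discriminant is a unit at `v`, and `(1 - a_v N v^(-s))⁻¹` otherwise. -/
noncomputable def factor (W : WeierstrassCurve ℤ) (s : ℂ) (v : HeightOneSpectrum (𝓞 K)) : ℂ :=
  (1 - (a W v : ℂ) * (Ideal.absNorm v.asIdeal : ℂ) ^ (-s) +
    if ((W.Δ : ℤ) : 𝓞 K) ∈ v.asIdeal then 0 else (Ideal.absNorm v.asIdeal : ℂ) ^ (1 - 2 * s))⁻¹

/-- The equation is minimal at the finite place `v` of `K`: no change of variables over `K` that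
keeps the coefficients integral at `v` decreases the valuation of the discriminant. -/
def MinimalAt (W : WeierstrassCurve ℤ) (v : HeightOneSpectrum (𝓞 K)) : Prop :=
  ∀ C : VariableChange K, v.valuation K (C • base W K).a₁ ≤ 1 →
    v.valuation K (C • base W K).a₂ ≤ 1 → v.valuation K (C • base W K).a₃ ≤ 1 →
    v.valuation K (C • base W K).a₄ ≤ 1 → v.valuation K (C • base W K).a₆ ≤ 1 →
    v.valuation K (C • base W K).Δ ≤ v.valuation K (base W K).Δ

/-- `E⁰(K_v)`, the group of the points of `W` over the completion `K_v` with nonsingular reduction: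
the points `(x, y)` where `x` is not integral, or one of the partial derivatives of
`y² + a₁ x y + a₃ y - x³ - a₂ x² - a₄ x - a₆` is a unit at `(x, y)`, and the point at infinity. -/
noncomputable def nonsing (W : WeierstrassCurve ℤ) (v : HeightOneSpectrum (𝓞 K)) :
    AddSubgroup (base W (v.adicCompletion K)).toAffine.Point :=
  AddSubgroup.closure {P | ∀ x y h, P = Affine.Point.some x y h →
    1 < Valued.v x ∨ Valued.v (W.a₁ * y - (3 * x ^ 2 + 2 * W.a₂ * x + W.a₄)) = 1 ∨
      Valued.v (2 * y + W.a₁ * x + W.a₃) = 1}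

/-- The Tamagawa number `c_v = [E(K_v) : E⁰(K_v)]` of a minimal equation. -/
noncomputable def c (W : WeierstrassCurve ℤ) (v : HeightOneSpectrum (𝓞 K)) : ℕ :=
  (nonsing W v).index

end

/-- `4 x³ + b₂ x² + 2 b₄ x + b₆ = (2 y + a₁ x + a₃)²`, where `b₂ = a₁² + 4 a₂`,
`b₄ = 2 a₄ + a₁ a₃`, `b₆ = a₃² + 4 a₆`. -/
def cubic (W : WeierstrassCurve ℤ) {R : Type} [CommRing R] (x : R) : R :=
  4 * x ^ 3 + W.b₂ * x ^ 2 + 2 * W.b₄ * x + W.b₆

/-- `Ω = ∫_{W(ℝ)} |ω|` with `ω = dx / (2 y + a₁ x + a₃)`, as an integral over `x`: two real points lie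
over each `x` with `cubic x > 0`. -/
noncomputable def realPeriod (W : WeierstrassCurve ℤ) : ℝ :=
  2 * ∫ x in {x : ℝ | 0 < cubic W x}, 1 / √(cubic W x)

section

variable (K : Type) [Field K] [NumberField K]

/-- The product of the Tamagawa numbers. -/
noncomputable def Tam (W : WeierstrassCurve ℤ) : ℕ := ∏ᶠ v : HeightOneSpectrum (𝓞 K), c W v

/-- The torsion points over `K`. -/
def tors (W : WeierstrassCurve ℤ) : Set (base W K).toAffine.Point := {P | ∃ n : ℕ, 0 < n ∧ n • P = 0}

/-- The rank of the group of the points over `K`. -/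
noncomputable def rank (W : WeierstrassCurve ℤ) : ℕ := Module.finrank ℤ (base W K).toAffine.Point

/-- The rank is zero and the Tate-Shafarevich group over `K` has no element of order two. -/
def RankShaTrivial (W : WeierstrassCurve ℤ) : Prop :=
  rank K W = 0 ∧ ∀ x : Sha (base W K), 2 • x = 0 → x = 0

/-- The Birch and Swinnerton-Dyer formula modulo two, without any hypothesis, for a totally real field
`K`: the equation is minimal, the period, the product of the Tamagawa numbers and the number of the torsion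
points are positive, there is an entire function `L` equal to `L(W/K, s)` for `Re s > 3 / 2`, and
`L(1) √|disc K| t² = x Ω^n ∏ c_v`, `n` the degree of `K`, with a rational number `x` whose denominator
is odd; and the numerator of `x` is odd if and only if the rank is zero and `Ш(W/K)` has no element of
order two. -/
def FormulaModTwo (W : WeierstrassCurve ℤ) : Prop :=
  nrComplexPlaces K = 0 ∧ (∀ v : HeightOneSpectrum (𝓞 K), MinimalAt W v) ∧
  {v : HeightOneSpectrum (𝓞 K) | c W v ≠ 1}.Finite ∧
  0 < realPeriod W ∧ 0 < Tam K W ∧ 0 < Nat.card (tors K W) ∧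
  ∃ (L : ℂ → ℂ) (x : ℚ), Differentiable ℂ L ∧
    (∀ s : ℂ, 3 / 2 < s.re → HasProd (factor (K := K) W s) (L s)) ∧
    L 1 * ((√|(discr K : ℝ)| : ℝ) : ℂ) * (Nat.card (tors K W) : ℂ) ^ 2 =
      x * (realPeriod W : ℂ) ^ Module.finrank ℚ K * (Tam K W : ℂ) ∧
    Odd x.den ∧ (Odd x.num ↔ RankShaTrivial K W)

/-- The formula modulo two holds, the rank is zero and `Ш(W/K)` has no element of order two.  Then the
numerator and the denominator of `x` are odd, so the 2-part of the formula holds and `L(W/K, 1) ≠ 0`. -/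
def TwoPart (W : WeierstrassCurve ℤ) : Prop := FormulaModTwo K W ∧ RankShaTrivial K W

/-- `n` generates a prime ideal of the ring of integers of `K`. -/
def InertIn (n : ℕ) : Prop := (Ideal.span {((n : ℕ) : 𝓞 K)}).IsPrime

end

/-- The inert primes. -/
def Inert (q : ℕ) : Prop := q.Prime ∧ q % 8 = 5 ∧ (q % 7 = 3 ∨ q % 7 = 5 ∨ q % 7 = 6)

/-- The split primes. -/
def Split (p : ℕ) : Prop := p.Prime ∧ p % 8 = 1 ∧ (p % 7 = 1 ∨ p % 7 = 2 ∨ p % 7 = 4)

/-- The field `K`, contained in the field `M` of the `q`-th roots of unity, is allowed for the twist by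
`D`: `q` is a power of a prime not dividing `14`, the degree of `K` is odd, either `3` divides `q` or
`2` and `7` are inert in `K` and the narrow class number of `K` is odd, the prime factors of `D` do
not divide `q`, and the SPLIT prime factors of `D` are inert in `K` (no condition on the decomposition
in `K` of the inert prime factors of `D`). -/
def Allowed (D q : ℕ) {M : Type} [Field M] [NumberField M] (K : IntermediateField ℚ M) : Prop :=
  IsPrimePow q ∧ q.Coprime 14 ∧ IsCyclotomicExtension {q} ℚ M ∧ Odd (Module.finrank ℚ K) ∧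
    (3 ∣ q ∨ (InertIn K 2 ∧ InertIn K 7 ∧ Odd (Nat.card (NCl K)))) ∧
    ∀ p : ℕ, p.Prime → p ∣ D → ¬ p ∣ q ∧ (Split p → InertIn K p)

/-- The 2-part of the formula holds over `ℚ` and over all the fields allowed for `D`. -/
def Good (D : ℕ) : Prop :=
  TwoPart ℚ (twist D) ∧
  ∀ (q : ℕ) (M : Type) [Field M] [NumberField M] (K : IntermediateField ℚ M), Allowed D q K →
    TwoPart K (twist D)

/-- The formula modulo two holds over `ℚ` and over all the fields allowed for `D`, and over all these
fields the rank is positive or the Tate-Shafarevich group has an element of order two.  Then the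
numerators of the `x` are even. -/
def EvenCase (D : ℕ) : Prop :=
  (FormulaModTwo ℚ (twist D) ∧ ¬ RankShaTrivial ℚ (twist D)) ∧
  ∀ (q : ℕ) (M : Type) [Field M] [NumberField M] (K : IntermediateField ℚ M), Allowed D q K →
    FormulaModTwo K (twist D) ∧ ¬ RankShaTrivial K (twist D)

/-- `D` is squarefree, all its prime factors are in `S` and split or inert, and exactly `k` of them are
split. -/
def Family (S : Set ℕ) (k D : ℕ) : Prop :=
  Squarefree D ∧ (∀ p : ℕ, p.Prime → p ∣ D → p ∈ S ∧ (Split p ∨ Inert p)) ∧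
    (D.primeFactors.filter fun p => p % 8 = 1).card = k

/-- at least a positive proportion of the primes up to `Y` is in `S` and of the kind `Q`, for all large
`Y` -/
def Dense (S : Set ℕ) (Q : ℕ → Prop) : Prop := ∃ (δ : ℝ) (Y₀ : ℕ), 0 < δ ∧ ∀ Y : ℕ, Y₀ ≤ Y →
  δ * (Y / Real.log Y) ≤ (Nat.card {p : ℕ // p ≤ Y ∧ p ∈ S ∧ Q p} : ℝ)

/-- `S` has positive lower densities among the split and among the inert primes, and the sum of the
inverses of the inert primes of `S` up to `y` is `δ log log y` up to a bounded error. -/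
def Regular (S : Set ℕ) (δ : ℝ) : Prop :=
  0 < δ ∧ δ ≤ 1 ∧ Dense S Split ∧ Dense S Inert ∧ ∃ C : ℝ, ∀ y : ℕ, 3 ≤ y →
    |∑ p ∈ (range (y + 1)).filter (fun p => p ∈ S ∧ Inert p), (1 : ℝ) / p -
      δ * Real.log (Real.log y)| ≤ C

/-- the number of the `D` with `1 ≤ D ≤ X` and `Q D` -/
noncomputable def count (Q : ℕ → Prop) (X : ℕ) : ℕ := Nat.card {D : ℕ // 1 ≤ D ∧ D ≤ X ∧ Q D}

open Pool.Agent.W2helper41.N (FamN Rg IA SA cf)

lemma count_eq (Q : ℕ → Prop) [DecidablePred Q] (X : ℕ) : count Q X = ((Icc 1 X).filter Q).card := by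
  unfold count
  rw [← Fintype.card_coe, ← Nat.card_eq_fintype_card]
  refine Nat.card_congr (Equiv.subtypeEquivRight fun p => ?_)
  rw [Finset.mem_filter, Finset.mem_Icc, and_assoc]

lemma card_le (S : Set ℕ) (Q : ℕ → Prop) {R : ℕ → Prop} (h : ∀ p, (p ∈ S ∧ Q p) ↔ R p) (Y : ℕ) :
    Nat.card {p : ℕ // p ≤ Y ∧ p ∈ S ∧ Q p} = ((range (Y + 1)).filter R).card := by
  rw [← Fintype.card_coe, ← Nat.card_eq_fintype_card]
  refine Nat.card_congr (Equiv.subtypeEquivRight fun p => ?_)
  rw [Finset.mem_filter, Finset.mem_range, Nat.lt_succ_iff, h]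

open Pool.Agent.V11291.FK (Dn) in
lemma dense_iff (S : Set ℕ) (Q : ℕ → Prop) {R : ℕ → Prop} (h : ∀ p, (p ∈ S ∧ Q p) ↔ R p) :
    Dense S Q ↔ Dn R := by
  unfold Dense Dn
  refine exists_congr fun δ => exists_congr fun Y₀ => and_congr_right fun _ =>
    forall_congr' fun Y => imp_congr_right fun _ => ?_
  rw [card_le S Q h Y]

lemma reg_iff (S : Set ℕ) (δ : ℝ) : Regular S δ ↔ Rg (fun p => p ∈ S) δ := by
  have h1 : Dense S Split ↔ Pool.Agent.V11291.FK.Dn (SA fun p => p ∈ S) :=
    dense_iff S Split fun p => Iff.rfl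
  have h2 : Dense S Inert ↔ Pool.Agent.V11291.FK.Dn (IA fun p => p ∈ S) :=
    dense_iff S Inert fun p => Iff.rfl
  have h3 : ∀ y : ℕ, ∑ p ∈ (range (y + 1)).filter (fun p => p ∈ S ∧ Inert p), (1 : ℝ) / p =
      ∑ p ∈ (range (y + 1)).filter (fun p => p.Prime ∧ IA (fun p => p ∈ S) p), (1 : ℝ) / p := by
    intro y
    refine Finset.sum_congr ?_ fun _ _ => rfl
    refine Finset.filter_congr fun p _ => ?_
    exact ⟨fun h => ⟨h.2.1, h⟩, fun h => h.2⟩
  constructor
  · rintro ⟨a1, a2, a3, a4, C, a5⟩
    exact ⟨a1, a2, h1.1 a3, h2.1 a4, C, fun y hy => by rw [← h3]; exact a5 y hy⟩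
  · rintro ⟨a1, a2, a3, a4, C, a5⟩
    exact ⟨a1, a2, h1.2 a3, h2.2 a4, C, fun y hy => by rw [h3]; exact a5 y hy⟩

lemma fam_iff (S : Set ℕ) (k D : ℕ) : Family S k D ↔ FamN (fun p => p ∈ S) k D := by
  unfold Family FamN
  constructor
  · rintro ⟨h1, h2, h3⟩
    exact ⟨h1, fun p hp => h2 p (Nat.prime_of_mem_primeFactors hp)
      (Nat.dvd_of_mem_primeFactors hp), h3⟩
  · rintro ⟨h1, h2, h3⟩
    exact ⟨h1, fun p hp hd => h2 p (Nat.mem_primeFactors.2 ⟨hp, hd, h1.ne_zero⟩), h3⟩

lemma crit {T P : Finset ℕ} (hT : ∀ q ∈ T, Inert q) (hP : ∀ p ∈ P, Split p) :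
    RankShaTrivial ℚ (twist (((∏ q ∈ T, q) * ∏ p ∈ P, p : ℕ) : ℤ)) ↔
      (Pool.Agent.W2helper41.X.mat P (∏ q ∈ T, q)).det ≠ 0 :=
  (Pool.Agent.W2helper41.X.crit hP hT).symm

lemma form_Q {T P : Finset ℕ} (hT : ∀ q ∈ T, Inert q) (hP : ∀ p ∈ P, Split p) (hc : P.card ≤ 2) :
    FormulaModTwo ℚ (twist (((∏ q ∈ T, q) * ∏ p ∈ P, p : ℕ) : ℤ)) := by
  obtain ⟨a1, a2, a3, a4, a5, L, x, b1, b2, b3, b4, b5⟩ :=
    Pool.Agent.W2helper41.X.main Pool.Agent.W2helper41.X.parts hP hT hc
  refine ⟨Pool.Agent.Y682.XF.nr_Q.2, a1, a2, a3, a4, a5, L, x, b1, b2, ?_,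
    Pool.Agent.W2helper41.X.odd_iff b4 (b5.trans (crit hT hP).symm)⟩
  rw [Module.finrank_self, pow_one, Rat.numberField_discr, Int.cast_one, abs_one, Real.sqrt_one,
    Complex.ofReal_one, mul_one]
  exact b3

lemma form_K {T P : Finset ℕ} (hT : ∀ q ∈ T, Inert q) (hP : ∀ p ∈ P, Split p) (hc : P.card ≤ 2)
    {q : ℕ} {M : Type} [Field M] [NumberField M] {K : IntermediateField ℚ M}
    (hK : Allowed ((∏ q ∈ T, q) * ∏ p ∈ P, p) q K) :
    FormulaModTwo K (twist (((∏ q ∈ T, q) * ∏ p ∈ P, p : ℕ) : ℤ)) ∧
    (RankShaTrivial K (twist (((∏ q ∈ T, q) * ∏ p ∈ P, p : ℕ) : ℤ)) ↔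
      (Pool.Agent.W2helper41.X.mat P (∏ q ∈ T, q)).det ≠ 0) := by
  obtain ⟨hq, hco, hcyc, hodd, hcl, hD⟩ := hK
  have : NeZero q := ⟨hq.ne_zero⟩
  obtain ⟨a1, a2, a3, a4, a5, a6, ⟨L, x, b1, b2, b3, b4, b5⟩, a7⟩ :=
    Pool.Agent.W2helper41.L.formT Pool.Agent.W2helper41.X.parts hP hT hc q hq hco M K hodd hcl (by
      intro p hp hpD
      obtain ⟨h5, h6⟩ := hD p hp hpD
      refine ⟨h5, ?_⟩
      rcases Pool.Agent.W2helper41.X.D_div hP hT hp hpD with h | h
      · exact Or.inl (hT p h)
      · exact Or.inr (h6 (hP p h)))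
  refine ⟨⟨a3, a1, a2, a4, a5, a6, L, x, b1, b2, b3, ?_⟩, a7⟩
  exact Pool.Agent.W2helper41.X.odd_iff b4 (b5.trans a7.symm)

/-- the two cases -/
lemma cases {T P : Finset ℕ} (hT : ∀ q ∈ T, Inert q) (hP : ∀ p ∈ P, Split p) (hc : P.card ≤ 2) :
    (Good ((∏ q ∈ T, q) * ∏ p ∈ P, p) ↔ (Pool.Agent.W2helper41.X.mat P (∏ q ∈ T, q)).det ≠ 0) ∧
    (EvenCase ((∏ q ∈ T, q) * ∏ p ∈ P, p) ↔
      ¬ (Pool.Agent.W2helper41.X.mat P (∏ q ∈ T, q)).det ≠ 0) := by
  refine ⟨⟨fun h => (crit hT hP).1 h.1.2, fun h => ?_⟩,
    ⟨fun h h' => h.1.2 ((crit hT hP).2 h'), fun h => ?_⟩⟩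
  · refine ⟨⟨form_Q hT hP hc, (crit hT hP).2 h⟩, fun q M _ _ K hK => ?_⟩
    obtain ⟨h2, h3⟩ := form_K hT hP hc hK
    exact ⟨h2, h3.2 h⟩
  · refine ⟨⟨form_Q hT hP hc, fun h' => h ((crit hT hP).1 h')⟩, fun q M _ _ K hK => ?_⟩
    obtain ⟨h2, h3⟩ := form_K hT hP hc hK
    exact ⟨h2, fun h' => h (h3.1 h')⟩

/-- the families and the sets of primes -/
lemma fam_prod {S : Set ℕ} {k D : ℕ} (hD : Family S k D) :
    (∀ q ∈ Pool.Agent.W2helper41.Z.ins D, Inert q) ∧
    (∀ p ∈ Pool.Agent.W2helper41.Z.sps D, Split p) ∧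
    D = (∏ q ∈ Pool.Agent.W2helper41.Z.ins D, q) * ∏ p ∈ Pool.Agent.W2helper41.Z.sps D, p ∧
    (Pool.Agent.W2helper41.Z.sps D).card = k := by
  have hk' := hD.2.2
  rw [fam_iff, Pool.Agent.W2helper41.N.famN_iff] at hD
  exact ⟨Pool.Agent.W2helper41.Z.ins_ine hD, Pool.Agent.W2helper41.Z.sps_spl hD,
    Pool.Agent.W2helper41.Z.prod_eq hD, hk'⟩

/-- a set with the split primes of one and the inert primes of another regular set -/
lemma regular_mix {S S₁ S₂ : Set ℕ} {δ₁ δ : ℝ} (h1 : Regular S₁ δ₁) (h2 : Regular S₂ δ)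
    (e1 : ∀ p, Split p → (p ∈ S ↔ p ∈ S₁)) (e2 : ∀ p, Inert p → (p ∈ S ↔ p ∈ S₂)) :
    Regular S δ := by
  have eS : ∀ p : ℕ, (p ∈ S ∧ Split p) ↔ (p ∈ S₁ ∧ Split p) := fun p =>
    and_congr_left fun hp => e1 p hp
  have eI : ∀ p : ℕ, (p ∈ S ∧ Inert p) ↔ (p ∈ S₂ ∧ Inert p) := fun p =>
    and_congr_left fun hp => e2 p hp
  obtain ⟨-, -, a3, -, -⟩ := h1
  obtain ⟨b1, b2, -, b4, C, b5⟩ := h2
  refine ⟨b1, b2, ?_, ?_, C, fun y hy => ?_⟩
  · rw [dense_iff _ _ (R := fun p => p ∈ S₁ ∧ Split p) eS]
    exact (dense_iff _ _ (R := fun p => p ∈ S₁ ∧ Split p) fun p => Iff.rfl).1 a3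
  · rw [dense_iff _ _ (R := fun p => p ∈ S₂ ∧ Inert p) eI]
    exact (dense_iff _ _ (R := fun p => p ∈ S₂ ∧ Inert p) fun p => Iff.rfl).1 b4
  · have h3 : (range (y + 1)).filter (fun p => p ∈ S ∧ Inert p) =
        (range (y + 1)).filter (fun p => p ∈ S₂ ∧ Inert p) :=
      Finset.filter_congr fun p _ => eI p
    rw [h3]
    exact b5 y hy

/-- **Main theorem.**

(1) Let `D` be a squarefree number all of whose prime factors are inert or split, at most two of them
split.  Then `D` is good or of the even case: the formula modulo two holds for `E_D` over `ℚ` and over all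
the fields allowed for `D`, and both sides are odd over all these fields or even over all these fields.
`D` is good if and only if `E_D(ℚ)` has rank zero and `Ш(E_D/ℚ)` has no element of order two, and this is
so if `D` has no split prime factor.

(2) Let `S` be a regular set of primes with the density `δ` of the inert primes, and `k = 1` or `k = 2`.
The number of the elements up to `X` of the family of `S, k` is between two positive constants times
`X (log X)^(δ - 1) (log log X)^k`, and the proportions of the good ones and of the ones of the even case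
tend to `1/2`.

(3) Let `R` be a nonempty set of reduced residue classes modulo a number `N` prime to `14`.  The set of the
primes in `R` modulo `N` is regular with the density `#R / (8 φ(N))`, and the set of the primes that are
inert or in `R` modulo `N` is regular with the density `1/8`.

(4) Let `K` be a subfield of odd degree of the field of the `3^(n + 1)`-th roots of unity.  If all the
split prime factors of the product `D` of inert and split primes are `2`, `4`, `5` or `7` modulo `9`,
then `K` is allowed for `D`. -/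
theorem result :
    (∀ k D : ℕ, Family Set.univ k D → k ≤ 2 → (k = 0 → Good D) ∧ (Good D ∨ EvenCase D) ∧
      (Good D ↔ RankShaTrivial ℚ (twist D))) ∧
    (∀ (S : Set ℕ) (δ : ℝ), Regular S δ → ∀ k : ℕ, k = 1 ∨ k = 2 →
      (∃ (c C : ℝ) (X₀ : ℕ), 0 < c ∧ 0 < C ∧ ∀ X : ℕ, X₀ ≤ X →
        c * (X * Real.log X ^ (δ - 1) * Real.log (Real.log X) ^ k) ≤
          (count (Family S k) X : ℝ) ∧
        (count (Family S k) X : ℝ) ≤
          C * (X * Real.log X ^ (δ - 1) * Real.log (Real.log X) ^ k)) ∧
      Tendsto (fun X : ℕ =>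
        (count (fun D => Family S k D ∧ Good D) X : ℝ) / (count (Family S k) X : ℝ)) atTop
        (𝓝 (1 / 2)) ∧
      Tendsto (fun X : ℕ =>
        (count (fun D => Family S k D ∧ EvenCase D) X : ℝ) / (count (Family S k) X : ℝ)) atTop
        (𝓝 (1 / 2))) ∧
    (∀ N : ℕ, N.Coprime 14 → ∀ R : Finset ℕ, R.Nonempty → (∀ a ∈ R, a < N ∧ a.Coprime N) →
      Regular {p | p % N ∈ R} (R.card / (8 * N.totient)) ∧
      Regular {p | Inert p ∨ p % N ∈ R} (1 / 8)) ∧
    ∀ (n : ℕ) (M : Type) [Field M] [NumberField M] [IsCyclotomicExtension {3 ^ (n + 1)} ℚ M]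
      (K : IntermediateField ℚ M), Odd (Module.finrank ℚ K) → ∀ k D : ℕ, Family Set.univ k D →
      (∀ p : ℕ, Split p → p ∣ D → p % 9 = 2 ∨ p % 9 = 4 ∨ p % 9 = 5 ∨ p % 9 = 7) →
      Allowed D (3 ^ (n + 1)) K := by
  have key : ∀ (S : Set ℕ) (k D : ℕ), Family S k D → k ≤ 2 →
      (Good D ↔ (Pool.Agent.W2helper41.X.mat
        (Pool.Agent.W2helper41.Z.sps D) (∏ q ∈ Pool.Agent.W2helper41.Z.ins D, q)).det ≠ 0) ∧
      (EvenCase D ↔ ¬ (Pool.Agent.W2helper41.X.mat
        (Pool.Agent.W2helper41.Z.sps D) (∏ q ∈ Pool.Agent.W2helper41.Z.ins D, q)).det ≠ 0) := by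
    intro S k D hD hk2
    obtain ⟨hT, hP, e, hk⟩ := fam_prod hD
    have e3 := cases hT hP (by rw [hk]; exact hk2)
    rw [← e] at e3
    exact e3
  refine ⟨?_, ?_, ?_, ?_⟩
  · intro k D hD hk2
    obtain ⟨hT, hP, e, hk⟩ := fam_prod hD
    obtain ⟨k1, k2⟩ := key _ k D hD hk2
    have hcr := crit hT hP
    rw [← e] at hcr
    refine ⟨fun hk0 => k1.2 ?_, ?_, k1.trans hcr.symm⟩
    · have h0 : Pool.Agent.W2helper41.Z.sps D = ∅ := by
        rw [← card_eq_zero, hk, hk0]
      rw [h0, Matrix.det_isEmpty]
      exact one_ne_zero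
    · by_cases h1 : (Pool.Agent.W2helper41.X.mat
          (Pool.Agent.W2helper41.Z.sps D) (∏ q ∈ Pool.Agent.W2helper41.Z.ins D, q)).det ≠ 0
      · exact Or.inl (k1.2 h1)
      · exact Or.inr (k2.2 h1)
  · intro S δ hS k hk12
    have hk : 0 < k := by omega
    have hk2 : k ≤ 2 := by omega
    rw [reg_iff] at hS
    have e1 : ∀ X : ℕ, count (Family S k) X =
        ((Icc 1 X).filter fun D => FamN (fun p => p ∈ S) k D).card := by
      intro X
      rw [count_eq]
      exact cf fun D _ => fam_iff S k D
    have hlaw := Pool.Agent.W2helper41.N.lawN hS hk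
    have hlim : ∏ i ∈ range ((k + 1) / 2), (1 - (1 / 2 : ℝ) ^ (2 * i + 1)) = 1 / 2 := by
      have h2 : (k + 1) / 2 = 1 := by omega
      rw [h2, Finset.prod_range_one]
      norm_num
    rw [hlim] at hlaw
    have hG : Tendsto (fun X : ℕ =>
        (count (fun D => Family S k D ∧ Good D) X : ℝ) / (count (Family S k) X : ℝ)) atTop
        (𝓝 (1 / 2)) := by
      refine hlaw.congr fun X => ?_
      rw [e1, count_eq]
      refine congrArg (fun n : ℕ => (n : ℝ) / _) (cf fun D _ => ?_)
      rw [← fam_iff]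
      exact and_congr_right fun hF => ((key S k D hF hk2).1).symm
    obtain ⟨c, C, X₀, hc, hC, h⟩ := Pool.Agent.W2helper41.N.sizeN hS k
    refine ⟨⟨c, C, X₀, hc, hC, fun X hX => ?_⟩, hG, ?_⟩
    · rw [e1]
      exact h X hX
    · have h1 := hG.const_sub 1
      have h2 : (1 : ℝ) - 1 / 2 = 1 / 2 := by norm_num
      rw [h2] at h1
      refine h1.congr' ?_
      have hpos : ∀ᶠ X : ℕ in atTop, (0 : ℝ) < (count (Family S k) X : ℝ) := by
        have t1 : Tendsto (fun X : ℕ => Real.log (X : ℝ)) atTop atTop :=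
          Real.tendsto_log_atTop.comp tendsto_natCast_atTop_atTop
        have t3 : Tendsto (fun X : ℕ => Real.log (Real.log (X : ℝ))) atTop atTop :=
          Real.tendsto_log_atTop.comp t1
        filter_upwards [eventually_ge_atTop X₀, eventually_ge_atTop 1, t1.eventually_gt_atTop 0,
          t3.eventually_gt_atTop 0] with X a1 a2 a3 a4
        have h3 := (h X a1).1
        rw [e1]
        refine lt_of_lt_of_le ?_ h3
        have h4 : (0 : ℝ) < X := by exact_mod_cast a2
        have h5 : 0 < Real.log X ^ (δ - 1) := Real.rpow_pos_of_pos a3 _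
        positivity
      filter_upwards [hpos] with X hX
      have h3 : count (fun D => Family S k D ∧ Good D) X +
          count (fun D => Family S k D ∧ EvenCase D) X = count (Family S k) X := by
        rw [count_eq, count_eq, count_eq,
          ← Finset.card_filter_add_card_filter_not (s := (Icc 1 X).filter (Family S k))
            (fun D => Good D), Finset.filter_filter, Finset.filter_filter]
        refine congrArg₂ (· + ·) rfl (cf fun D _ => ?_)
        refine and_congr_right fun hF => ?_
        rw [(key S k D hF hk2).1, (key S k D hF hk2).2]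
      have h4 : (count (fun D => Family S k D ∧ EvenCase D) X : ℝ) =
          (count (Family S k) X : ℝ) - (count (fun D => Family S k D ∧ Good D) X : ℝ) := by
        rw [← h3]
        push_cast
        ring
      rw [h4, sub_div, div_self hX.ne']
  · intro N hN R hR hRN
    have h1 : Regular {p | p % N ∈ R} (R.card / (8 * N.totient)) := by
      rw [reg_iff]
      exact Pool.Agent.W2helper41.N.rg_class hN hR hRN
    have h2 : Regular {p | p % 1 ∈ ({0} : Finset ℕ)} (({0} : Finset ℕ).card /
        (8 * Nat.totient 1)) := by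
      rw [reg_iff]
      exact Pool.Agent.W2helper41.N.rg_class (Nat.coprime_one_left 14) (singleton_nonempty 0)
        (by
          intro a ha
          rw [mem_singleton] at ha
          rw [ha]
          exact ⟨one_pos, Nat.coprime_one_right 0⟩)
    have e8 : ((({0} : Finset ℕ).card : ℝ) / (8 * (Nat.totient 1 : ℝ))) = 1 / 8 := by
      rw [card_singleton, Nat.totient_one]
      norm_num
    rw [e8] at h2
    refine ⟨h1, regular_mix h1 h2 (fun p hp => ⟨fun h => ?_, fun h => Or.inr h⟩)
      (fun p hp => ⟨fun _ => ?_, fun _ => Or.inl hp⟩)⟩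
    · rcases h with h | h
      · have h3 := h.2.1
        have h4 := hp.2.1
        omega
      · exact h
    · show p % 1 ∈ ({0} : Finset ℕ)
      rw [Nat.mod_one]
      exact mem_singleton_self 0
  · intro n M _ _ _ K hodd k D hD hsp
    refine ⟨⟨3, n + 1, Nat.prime_three.prime, by omega, rfl⟩, ?_, inferInstance, hodd,
      Or.inl (dvd_pow_self 3 (by omega)), fun p hp hpD => ⟨?_, fun hs => ?_⟩⟩
    · exact Nat.Coprime.pow_left _ (by norm_num)
    · intro h
      have h4 := (Nat.prime_dvd_prime_iff_eq hp Nat.prime_three).1 (hp.dvd_of_dvd_pow h)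
      have h5 := (hD.2.1 p hp hpD).2
      rcases h5 with h5 | h5
      · have := h5.2.1
        omega
      · have := h5.2.1
        omega
    · exact Pool.Agent.Y682.YQ.inert9 n M K hodd hp (hsp p hs hpD)

end Pool.Agent.Results.MP_9c97e9_nt.FormulaAllInertOverLayers
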