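import Pool.Agent.W2helper41.Z.Frm
import Pool.Agent.W2helper41.Z.Num
import Pool.Agent.W2helper41.X.Odd

/-!
# The Birch and Swinnerton-Dyer formula modulo two over the layers of the cyclotomic `ℤ₃`-extension for
# the quadratic twists of `X_0(14)` with at most two split primes, and the 2-part for half of them

`E_D` is the quadratic twist by `D` of the modular curve `X_0(14)`; the curves have no complex
multiplication.  A prime is inert if it is `5` modulo `8` and not a square modulo `7`, and split if it
is `1` modulo `8` and a square modulo `7`.  `D` is a product of any number of distinct inert primes and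
of at most two split primes.  `K` is `ℚ` or a subfield of odd degree of the field of the `q`-th roots of
unity, `q` a power of a prime not dividing `14`, in which the prime factors of `D` are inert; and `q` is a
power of three or `2` and `7` are inert in `K` and the narrow class number of `K` is odd.  If all the prime
factors of `D` are `2`, `4`, `5` or `7` modulo `9`, all the layers of the cyclotomic `ℤ₃`-extension of `ℚ`,
which are number fields of the degrees `3^n`, are such fields `K`.

* `L(E_D/K, s)` is entire, and the value predicted by the formula for the order of `Ш(E_D/K)`,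
  `x = √|disc K| L(E_D/K, 1) t² / (Ω ∏ c_v)`, is a rational number with odd denominator.  Its numerator
  is odd if and only if `E_D(K)` has rank zero and `Ш(E_D/K)` has no element of order two: the formula
  holds modulo two for all these `D` and `K`, with no hypothesis on the rank, on `Ш` or on the central
  value.  Both sides are odd if and only if a matrix of residue symbols, which does not depend on `K`, is
  nonsingular; then the central value is not zero and the 2-part of the formula holds.
* Let `S` be any set of primes with a positive lower density both among the inert and among the split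
  primes, let `r ≥ 1` and `k = 1` or `k = 2`.  For exactly half of the products `D` of `r` inert and `k`
  split primes in `S`, ordered by size, the 2-part of the formula holds with a nonzero central value over
  all these fields `K`.  The number of these `D` up to `X` has the order of magnitude
  `X (log log X)^(k + r - 1) / log X`.

The proof.  Analytic side: the values over `ℚ` by the congruence between the modular symbols of `X_0(14)`
and Dedekind sums and a sum over the divisors of `D`, modulo the next power of two; the values of the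
other characters of `Gal(K/ℚ)` are 2-adic units (library).  Algebraic side: descent with the isogenies of
degree two over `ℚ` for all matrices, nonsingular or not, and the comparison of the points and of the
2-primary part of `Ш` over `ℚ` and `K` (library).  All the periods, torsion points and Tamagawa numbers
over `K` are compared.  Statistics: the matrix of residue symbols is equidistributed for the arbitrary set
`S` of primes by the quadratic large sieve in boxes (library).
-/

set_option autoImplicit false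

open NumberField NumberField.InfinitePlace IsDedekindDomain WeierstrassCurve MeasureTheory Filter
  Topology Finset

namespace Pool.Agent.Results.MP_9c97e9_nt.FormulaOverLayers

open scoped Classical

open Pool.Agent.TH841.NF.D (Sha)

open Pool.Agent.Y682 (NCl)

/-- The quadratic twist `E_D` of `X_0(14)` (`D = 1` modulo `4`), with its global minimal equation
`y² + x y + y = x³ + ((D - 1)/4) x² + ((9 D² - 1)/2) x - (23 D³ + 1)/4`.  It is isomorphic to
`Y² = X (X² + 13 D X + 128 D²)` by `X = 4 (x - D)`, `Y = 4 (2 y + x + 1)`. -/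
def twist (D : ℤ) : WeierstrassCurve ℤ :=
  ⟨1, (D - 1) / 4, 1, (9 * D ^ 2 - 1) / 2, -((23 * D ^ 3 + 1) / 4)⟩

/-- The curve given by the equation of `W` over the ring `R`. -/
abbrev base (W : WeierstrassCurve ℤ) (R : Type) [CommRing R] : WeierstrassCurve R :=
  W.map (Int.castRingHom R)

/-- The number of the affine points `(x, y)` over the ring `R`. -/
noncomputable def pts (W : WeierstrassCurve ℤ) (R : Type) [CommRing R] : ℕ :=
  Nat.card {P : R × R // (base W R).toAffine.Equation P.1 P.2}

section

variable {K : Type} [Field K] [NumberField K]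

/-- `a_v = N v + 1 - #W(k_v)`, the points over the residue field `k_v` counted with the point at
infinity. -/
noncomputable def a (W : WeierstrassCurve ℤ) (v : HeightOneSpectrum (𝓞 K)) : ℤ :=
  (Ideal.absNorm v.asIdeal : ℤ) - pts W (𝓞 K ⧸ v.asIdeal)

/-- The Euler factor of `L(W/K, s)` at `v` : `(1 - a_v N v^(-s) + N v^(1 - 2 s))⁻¹` if the
discriminant is a unit at `v`, and `(1 - a_v N v^(-s))⁻¹` otherwise. -/
noncomputable def factor (W : WeierstrassCurve ℤ) (s : ℂ) (v : HeightOneSpectrum (𝓞 K)) : ℂ :=
  (1 - (a W v : ℂ) * (Ideal.absNorm v.asIdeal : ℂ) ^ (-s) +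
    if ((W.Δ : ℤ) : 𝓞 K) ∈ v.asIdeal then 0 else (Ideal.absNorm v.asIdeal : ℂ) ^ (1 - 2 * s))⁻¹

/-- The equation is minimal at the finite place `v` of `K`: no change of variables over `K` that
keeps the coefficients integral at `v` decreases the valuation of the discriminant. -/
def MinimalAt (W : WeierstrassCurve ℤ) (v : HeightOneSpectrum (𝓞 K)) : Prop :=
  ∀ C : VariableChange K, v.valuation K (C • base W K).a₁ ≤ 1 →
    v.valuation K (C • base W K).a₂ ≤ 1 → v.valuation K (C • base W K).a₃ ≤ 1 →
    v.valuation K (C • base W K).a₄ ≤ 1 → v.valuation K (C • base W K).a₆ ≤ 1 →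
    v.valuation K (C • base W K).Δ ≤ v.valuation K (base W K).Δ

/-- `E⁰(K_v)`, the group of the points of `W` over the completion `K_v` with nonsingular reduction:
the points `(x, y)` where `x` is not integral, or one of the partial derivatives of
`y² + a₁ x y + a₃ y - x³ - a₂ x² - a₄ x - a₆` is a unit at `(x, y)`, and the point at infinity. -/
noncomputable def nonsing (W : WeierstrassCurve ℤ) (v : HeightOneSpectrum (𝓞 K)) :
    AddSubgroup (base W (v.adicCompletion K)).toAffine.Point :=
  AddSubgroup.closure {P | ∀ x y h, P = Affine.Point.some x y h →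
    1 < Valued.v x ∨ Valued.v (W.a₁ * y - (3 * x ^ 2 + 2 * W.a₂ * x + W.a₄)) = 1 ∨
      Valued.v (2 * y + W.a₁ * x + W.a₃) = 1}

/-- The Tamagawa number `c_v = [E(K_v) : E⁰(K_v)]` of a minimal equation. -/
noncomputable def c (W : WeierstrassCurve ℤ) (v : HeightOneSpectrum (𝓞 K)) : ℕ :=
  (nonsing W v).index

end

/-- `4 x³ + b₂ x² + 2 b₄ x + b₆ = (2 y + a₁ x + a₃)²`, where `b₂ = a₁² + 4 a₂`,
`b₄ = 2 a₄ + a₁ a₃`, `b₆ = a₃² + 4 a₆`. -/
def cubic (W : WeierstrassCurve ℤ) {R : Type} [CommRing R] (x : R) : R :=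
  4 * x ^ 3 + W.b₂ * x ^ 2 + 2 * W.b₄ * x + W.b₆

/-- `Ω = ∫_{W(ℝ)} |ω|` with `ω = dx / (2 y + a₁ x + a₃)`, as an integral over `x`: two real points lie
over each `x` with `cubic x > 0`. -/
noncomputable def realPeriod (W : WeierstrassCurve ℤ) : ℝ :=
  2 * ∫ x in {x : ℝ | 0 < cubic W x}, 1 / √(cubic W x)

section

variable (K : Type) [Field K] [NumberField K]

/-- The product of the Tamagawa numbers. -/
noncomputable def Tam (W : WeierstrassCurve ℤ) : ℕ := ∏ᶠ v : HeightOneSpectrum (𝓞 K), c W v

/-- The torsion points over `K`. -/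
def tors (W : WeierstrassCurve ℤ) : Set (base W K).toAffine.Point := {P | ∃ n : ℕ, 0 < n ∧ n • P = 0}

/-- The rank of the group of the points over `K`. -/
noncomputable def rank (W : WeierstrassCurve ℤ) : ℕ := Module.finrank ℤ (base W K).toAffine.Point

/-- The rank is zero and the Tate-Shafarevich group over `K` has no element of order two. -/
def RankShaTrivial (W : WeierstrassCurve ℤ) : Prop :=
  rank K W = 0 ∧ ∀ x : Sha (base W K), 2 • x = 0 → x = 0

/-- The Birch and Swinnerton-Dyer formula modulo two, without any hypothesis, for a totally real field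
`K`: the equation is minimal, the period, the product of the Tamagawa numbers and the number of the torsion
points are positive, there is an entire function `L` equal to `L(W/K, s)` for `Re s > 3 / 2`, and
`L(1) √|disc K| t² = x Ω^n ∏ c_v`, `n` the degree of `K`, with a rational number `x` whose denominator
is odd; and the numerator of `x` is odd if and only if the rank is zero and `Ш(W/K)` has no element of
order two. -/
def FormulaModTwo (W : WeierstrassCurve ℤ) : Prop :=
  nrComplexPlaces K = 0 ∧ (∀ v : HeightOneSpectrum (𝓞 K), MinimalAt W v) ∧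
  {v : HeightOneSpectrum (𝓞 K) | c W v ≠ 1}.Finite ∧
  0 < realPeriod W ∧ 0 < Tam K W ∧ 0 < Nat.card (tors K W) ∧
  ∃ (L : ℂ → ℂ) (x : ℚ), Differentiable ℂ L ∧
    (∀ s : ℂ, 3 / 2 < s.re → HasProd (factor (K := K) W s) (L s)) ∧
    L 1 * ((√|(discr K : ℝ)| : ℝ) : ℂ) * (Nat.card (tors K W) : ℂ) ^ 2 =
      x * (realPeriod W : ℂ) ^ Module.finrank ℚ K * (Tam K W : ℂ) ∧
    Odd x.den ∧ (Odd x.num ↔ RankShaTrivial K W)

/-- The formula modulo two holds, the rank is zero and `Ш(W/K)` has no element of order two.  Then the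
numerator and the denominator of `x` are odd, so the 2-part of the formula holds and `L(W/K, 1) ≠ 0`. -/
def TwoPart (W : WeierstrassCurve ℤ) : Prop := FormulaModTwo K W ∧ RankShaTrivial K W

/-- `n` generates a prime ideal of the ring of integers of `K`. -/
def InertIn (n : ℕ) : Prop := (Ideal.span {((n : ℕ) : 𝓞 K)}).IsPrime

end

/-- The inert primes. -/
def Inert (q : ℕ) : Prop := q.Prime ∧ q % 8 = 5 ∧ (q % 7 = 3 ∨ q % 7 = 5 ∨ q % 7 = 6)

/-- The split primes. -/
def Split (p : ℕ) : Prop := p.Prime ∧ p % 8 = 1 ∧ (p % 7 = 1 ∨ p % 7 = 2 ∨ p % 7 = 4)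

/-- The residue symbol, written additively: `0` for the squares and `1` for the other elements. -/
noncomputable def ns {F : Type} [Mul F] (x : F) : ZMod 2 := if IsSquare x then 0 else 1

/-- The local symbol of `m` at the split prime `p`: `0` if `y⁴ + 13 m y² + 128 m²` has a root modulo
`p`, and `1` otherwise. -/
noncomputable def nr (m p : ℕ) : ZMod 2 :=
  if ∃ y : ZMod p, y ^ 4 + 13 * m * y ^ 2 + 128 * m ^ 2 = 0 then 0 else 1

/-- The matrix of `m` and `P`: the entry at `(j, i)` is the residue symbol of `i` modulo `j` if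
`i ≠ j`, and the diagonal entry at `j` is the local symbol of `m` at `j` plus the sum of the residue
symbols modulo `j` of the other primes of `P`. -/
noncomputable def matrix (P : Finset ℕ) (m : ℕ) : Matrix P P (ZMod 2) := Matrix.of fun j i =>
  if i = j then nr m j + ∑ l ∈ P.erase j, ns ((l : ℕ) : ZMod (j : ℕ)) else ns ((i : ℕ) : ZMod (j : ℕ))

/-- The field `K`, contained in the field `M` of the `q`-th roots of unity, is allowed for the twist by
`D`: `q` is a power of a prime not dividing `14`, the degree of `K` is odd, either `3` divides `q` or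
`2` and `7` are inert in `K` and the narrow class number of `K` is odd, and the prime factors of `D` do
not divide `q` and are inert in `K`. -/
def Allowed (D q : ℕ) {M : Type} [Field M] [NumberField M] (K : IntermediateField ℚ M) : Prop :=
  IsPrimePow q ∧ q.Coprime 14 ∧ IsCyclotomicExtension {q} ℚ M ∧ Odd (Module.finrank ℚ K) ∧
    (3 ∣ q ∨ (InertIn K 2 ∧ InertIn K 7 ∧ Odd (Nat.card (NCl K)))) ∧
    ∀ p : ℕ, p.Prime → p ∣ D → ¬ p ∣ q ∧ InertIn K p

/-- The 2-part of the formula holds over `ℚ` and over all the fields allowed for `D`. -/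
def Good (D : ℕ) : Prop :=
  TwoPart ℚ (twist D) ∧
  ∀ (q : ℕ) (M : Type) [Field M] [NumberField M] (K : IntermediateField ℚ M), Allowed D q K →
    TwoPart K (twist D)

/-- `D` is squarefree, all its prime factors are in `S`, `k` of them are split and `r` of them are
inert. -/
def Family (S : Set ℕ) (k r D : ℕ) : Prop :=
  Squarefree D ∧ (∀ p : ℕ, p.Prime → p ∣ D → p ∈ S ∧ (Split p ∨ Inert p)) ∧
    (D.primeFactors.filter fun p => p % 8 = 1).card = k ∧
    (D.primeFactors.filter fun p => p % 8 = 5).card = r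

/-- at least a positive proportion of the primes up to `Y` is in `S` and of the kind `Q`, for all large
`Y` -/
def Dense (S : Set ℕ) (Q : ℕ → Prop) : Prop := ∃ (δ : ℝ) (Y₀ : ℕ), 0 < δ ∧ ∀ Y : ℕ, Y₀ ≤ Y →
  δ * (Y / Real.log Y) ≤ (Nat.card {p : ℕ // p ≤ Y ∧ p ∈ S ∧ Q p} : ℝ)

/-- the number of the `D` with `1 ≤ D ≤ X` and `Q D` -/
noncomputable def count (Q : ℕ → Prop) (X : ℕ) : ℕ := Nat.card {D : ℕ // 1 ≤ D ∧ D ≤ X ∧ Q D}

lemma count_eq (Q : ℕ → Prop) [DecidablePred Q] (X : ℕ) : count Q X = ((Icc 1 X).filter Q).card := by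
  unfold count
  rw [← Fintype.card_coe, ← Nat.card_eq_fintype_card]
  refine Nat.card_congr (Equiv.subtypeEquivRight fun p => ?_)
  rw [Finset.mem_filter, Finset.mem_Icc, and_assoc]

open Pool.Agent.V11291.FK (Dn) in
lemma dense_iff (S : Set ℕ) (Q : ℕ → Prop) : Dense S Q ↔ Dn fun p => p ∈ S ∧ Q p := by
  unfold Dense Dn
  have h : ∀ Y : ℕ, Nat.card {p : ℕ // p ≤ Y ∧ p ∈ S ∧ Q p} =
      ((range (Y + 1)).filter fun p => p ∈ S ∧ Q p).card := by
    intro Y
    rw [← Fintype.card_coe, ← Nat.card_eq_fintype_card]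
    refine Nat.card_congr (Equiv.subtypeEquivRight fun p => ?_)
    rw [Finset.mem_filter, Finset.mem_range, Nat.lt_succ_iff]
  simp only [h]
  refine exists_congr fun δ => exists_congr fun Y₀ => and_congr_right fun _ =>
    forall_congr' fun Y => imp_congr_right fun _ => ?_
  rw [iff_iff_eq]
  congr!

open Pool.Agent.W2helper41.Z (Fam Bd sps ins) in
lemma fam_iff (S : Set ℕ) (k r D : ℕ) : Family S k r D ↔ Fam (fun p => p ∈ S) k r D := by
  unfold Family Fam
  constructor
  · rintro ⟨h1, h2, h3, h4⟩
    exact ⟨h1, fun p hp => h2 p (Nat.prime_of_mem_primeFactors hp)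
      (Nat.dvd_of_mem_primeFactors hp), h3, h4⟩
  · rintro ⟨h1, h2, h3, h4⟩
    exact ⟨h1, fun p hp hd => h2 p (Nat.mem_primeFactors.2 ⟨hp, hd, h1.ne_zero⟩), h3, h4⟩

lemma crit {T P : Finset ℕ} (hT : ∀ q ∈ T, Inert q) (hP : ∀ p ∈ P, Split p) :
    RankShaTrivial ℚ (twist (((∏ q ∈ T, q) * ∏ p ∈ P, p : ℕ) : ℤ)) ↔
      (matrix P (∏ q ∈ T, q)).det ≠ 0 :=
  (Pool.Agent.W2helper41.X.crit hP hT).symm

lemma form_Q {T P : Finset ℕ} (hT : ∀ q ∈ T, Inert q) (hP : ∀ p ∈ P, Split p) (hc : P.card ≤ 2) :
    FormulaModTwo ℚ (twist (((∏ q ∈ T, q) * ∏ p ∈ P, p : ℕ) : ℤ)) := by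
  obtain ⟨a1, a2, a3, a4, a5, L, x, b1, b2, b3, b4, b5⟩ :=
    Pool.Agent.W2helper41.X.main Pool.Agent.W2helper41.X.parts hP hT hc
  refine ⟨Pool.Agent.Y682.XF.nr_Q.2, a1, a2, a3, a4, a5, L, x, b1, b2, ?_,
    Pool.Agent.W2helper41.X.odd_iff b4 (b5.trans (crit hT hP).symm)⟩
  rw [Module.finrank_self, pow_one, Rat.numberField_discr, Int.cast_one, abs_one, Real.sqrt_one,
    Complex.ofReal_one, mul_one]
  exact b3

lemma form_K {T P : Finset ℕ} (hT : ∀ q ∈ T, Inert q) (hP : ∀ p ∈ P, Split p) (hc : P.card ≤ 2)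
    {q : ℕ} {M : Type} [Field M] [NumberField M] {K : IntermediateField ℚ M}
    (hK : Allowed ((∏ q ∈ T, q) * ∏ p ∈ P, p) q K) :
    FormulaModTwo K (twist (((∏ q ∈ T, q) * ∏ p ∈ P, p : ℕ) : ℤ)) ∧
    (RankShaTrivial K (twist (((∏ q ∈ T, q) * ∏ p ∈ P, p : ℕ) : ℤ)) ↔
      (matrix P (∏ q ∈ T, q)).det ≠ 0) := by
  obtain ⟨hq, hco, hcyc, hodd, hcl, hD⟩ := hK
  have : NeZero q := ⟨hq.ne_zero⟩
  obtain ⟨a1, a2, a3, a4, a5, a6, ⟨L, x, b1, b2, b3, b4, b5⟩, a7⟩ :=
    Pool.Agent.W2helper41.Z.form Pool.Agent.W2helper41.X.parts hP hT hc q hq hco M K hodd hcl hD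
  refine ⟨⟨a3, a1, a2, a4, a5, a6, L, x, b1, b2, b3, ?_⟩, a7⟩
  exact Pool.Agent.W2helper41.X.odd_iff b4 (b5.trans a7.symm)

/-- **Main theorem.**

(1) Let `T` be a finite set of inert primes, `P` a set of at most two split primes and `D = ∏ T ∏ P`.
For `K = ℚ` and for all the fields `K` allowed for `D` the formula modulo two holds for `E_D` over `K`; and
the rank of `E_D(K)` is zero and `Ш(E_D/K)` has no element of order two if and only if the matrix of
`∏ T` and `P` is nonsingular.

(2) Let `S` be a set of primes with positive lower densities among the split and the inert primes,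
`r ≥ 1` and `k = 1` or `k = 2`.  The number of the elements up to `X` of the family of `S, k, r` is
between two positive constants times `X (log log X)^(k + r - 1) / log X`, and the proportion of the `D`
in the family for which the 2-part of the formula holds, with rank zero, over `ℚ` and over all the fields
allowed for `D` tends to `1/2`.

(3) The conditions on `S` are satisfied by the residue class of `c` modulo `N` for all `N` prime to `14`
and `c` prime to `N`.

(4) Let `K` be a subfield of odd degree of the field of the `3^(n + 1)`-th roots of unity.  If all the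
prime factors of `D` are `2`, `4`, `5` or `7` modulo `9`, then `K` is allowed for `D`. -/
theorem result :
    (∀ T P : Finset ℕ, (∀ q ∈ T, Inert q) → (∀ p ∈ P, Split p) → P.card ≤ 2 →
      (FormulaModTwo ℚ (twist (((∏ q ∈ T, q) * ∏ p ∈ P, p : ℕ) : ℤ)) ∧
        (RankShaTrivial ℚ (twist (((∏ q ∈ T, q) * ∏ p ∈ P, p : ℕ) : ℤ)) ↔
          (matrix P (∏ q ∈ T, q)).det ≠ 0)) ∧
      ∀ (q : ℕ) (M : Type) [Field M] [NumberField M] (K : IntermediateField ℚ M),
        Allowed ((∏ q ∈ T, q) * ∏ p ∈ P, p) q K →
        FormulaModTwo K (twist (((∏ q ∈ T, q) * ∏ p ∈ P, p : ℕ) : ℤ)) ∧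
        (RankShaTrivial K (twist (((∏ q ∈ T, q) * ∏ p ∈ P, p : ℕ) : ℤ)) ↔
          (matrix P (∏ q ∈ T, q)).det ≠ 0)) ∧
    (∀ S : Set ℕ, Dense S Split → Dense S Inert → ∀ k r : ℕ, k = 1 ∨ k = 2 → 0 < r →
      (∃ (c C : ℝ) (X₀ : ℕ), 0 < c ∧ 0 < C ∧ ∀ X : ℕ, X₀ ≤ X →
        c * (X * Real.log (Real.log X) ^ (k + r - 1) / Real.log X) ≤
          (count (Family S k r) X : ℝ) ∧
        (count (Family S k r) X : ℝ) ≤
          C * (X * Real.log (Real.log X) ^ (k + r - 1) / Real.log X)) ∧
      Tendsto (fun X : ℕ =>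
        (count (fun D => Family S k r D ∧ Good D) X : ℝ) / (count (Family S k r) X : ℝ)) atTop
        (𝓝 (1 / 2))) ∧
    (∀ N c : ℕ, N.Coprime 14 → c.Coprime N →
      Dense {p | p % N = c % N} Split ∧ Dense {p | p % N = c % N} Inert) ∧
    ∀ (n : ℕ) (M : Type) [Field M] [NumberField M] [IsCyclotomicExtension {3 ^ (n + 1)} ℚ M]
      (K : IntermediateField ℚ M), Odd (Module.finrank ℚ K) → ∀ D : ℕ,
      (∀ p : ℕ, p.Prime → p ∣ D → p % 9 = 2 ∨ p % 9 = 4 ∨ p % 9 = 5 ∨ p % 9 = 7) →
      Allowed D (3 ^ (n + 1)) K := by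
  have h1 : ∀ T P : Finset ℕ, (∀ q ∈ T, Inert q) → (∀ p ∈ P, Split p) → P.card ≤ 2 →
      (Good ((∏ q ∈ T, q) * ∏ p ∈ P, p) ↔ (matrix P (∏ q ∈ T, q)).det ≠ 0) := by
    intro T P hT hP hc
    constructor
    · exact fun h => (crit hT hP).1 h.1.2
    · intro h
      refine ⟨⟨form_Q hT hP hc, (crit hT hP).2 h⟩, fun q M _ _ K hK => ?_⟩
      obtain ⟨h2, h3⟩ := form_K hT hP hc hK
      exact ⟨h2, h3.2 h⟩
  refine ⟨fun T P hT hP hc => ⟨⟨form_Q hT hP hc, crit hT hP⟩,
    fun q M _ _ K hK => form_K hT hP hc hK⟩, ?_, ?_, ?_⟩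
  · intro S hS1 hS2 k r hk12 hr
    have hk : 0 < k := by omega
    have hR : Pool.Agent.W2helper41.Z.Rich fun p => p ∈ S :=
      ⟨(dense_iff S Split).1 hS1, (dense_iff S Inert).1 hS2⟩
    have e1 : ∀ X : ℕ, count (Family S k r) X =
        ((Icc 1 X).filter fun D => Pool.Agent.W2helper41.Z.Fam (fun p => p ∈ S) k r D).card := by
      intro X
      rw [count_eq]
      congr 1
      ext D
      rw [mem_filter, mem_filter, fam_iff]
    have key : ∀ D : ℕ, Pool.Agent.W2helper41.Z.Fam (fun p => p ∈ S) k r D →
        (Good D ↔ (Pool.Agent.W2helper41.X.mat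
          (Pool.Agent.W2helper41.Z.sps D) (∏ q ∈ Pool.Agent.W2helper41.Z.ins D, q)).det ≠ 0) := by
      intro D hD
      have hT : ∀ q ∈ Pool.Agent.W2helper41.Z.ins D, Inert q := Pool.Agent.W2helper41.Z.ins_ine hD
      have hP : ∀ p ∈ Pool.Agent.W2helper41.Z.sps D, Split p := Pool.Agent.W2helper41.Z.sps_spl hD
      have e := Pool.Agent.W2helper41.Z.prod_eq hD
      have hcd : (Pool.Agent.W2helper41.Z.sps D).card ≤ 2 := by
        rw [hD.2.2.1]
        omega
      have e3 := h1 _ _ hT hP hcd
      rw [← e] at e3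
      exact e3
    have hlaw := Pool.Agent.W2helper41.Z.N_law hk hr hR
    refine ⟨?_, ?_⟩
    · obtain ⟨c, C, X₀, hc, hC, h⟩ := Pool.Agent.W2helper41.Z.N_size (r := r) hk hR
      refine ⟨c, C, X₀, hc, hC, fun X hX => ?_⟩
      rw [e1]
      exact h X hX
    · have hlim : ∏ i ∈ range ((k + 1) / 2), (1 - (1 / 2 : ℝ) ^ (2 * i + 1)) = 1 / 2 := by
        have h2 : (k + 1) / 2 = 1 := by omega
        rw [h2, Finset.prod_range_one]
        norm_num
      rw [hlim] at hlaw
      refine hlaw.congr fun X => ?_
      rw [e1, count_eq]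
      congr 3
      refine Finset.filter_congr fun D _ => ?_
      rw [fam_iff]
      exact and_congr_right fun hF => (key D hF).symm
  · intro N c hN hc
    obtain ⟨h2, h3⟩ := Pool.Agent.W2helper41.Z.rich_class hN hc
    exact ⟨(dense_iff _ Split).2 h2, (dense_iff _ Inert).2 h3⟩
  · intro n M _ _ _ K hodd D hD
    refine ⟨⟨3, n + 1, Nat.prime_three.prime, by omega, rfl⟩, ?_, inferInstance, hodd,
      Or.inl (dvd_pow_self 3 (by omega)), fun p hp hpD => ⟨?_, ?_⟩⟩
    · exact Nat.Coprime.pow_left _ (by norm_num)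
    · intro h
      have h4 := (Nat.prime_dvd_prime_iff_eq hp Nat.prime_three).1 (hp.dvd_of_dvd_pow h)
      have h5 := hD p hp hpD
      omega
    · exact Pool.Agent.Y682.YQ.inert9 n M K hodd hp (hD p hp hpD)

end Pool.Agent.Results.MP_9c97e9_nt.FormulaOverLayers
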