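import Pool.Agent.W2helper41.X.Par
import Pool.Agent.W2helper41.X.Exi
import Pool.Agent.W2helper41.X.Odd

/-!
# The 2-part of the Birch and Swinnerton-Dyer formula for quadratic twists of `X_0(14)` by split primes

`E_D` is the quadratic twist of the modular curve `X_0(14)` by `D = m ∏ P`, where `m` is a product of
any number of inert primes (`5` modulo `8`, not squares modulo `7`) and `P` is a set of split primes
(`1` modulo `8`, squares modulo `7`).  The curves have no complex multiplication.

* For every number of split primes: `E_D(ℚ)` is finite and `Ш(E_D)` has no element of order two if and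
  only if a matrix of quadratic residue symbols of the primes of `P` is nonsingular over `𝔽₂`.
* For every `D` there are infinitely many inert primes `q` such that this holds for `q D`.
* For at most two split primes: the value predicted by the formula for the order of `Ш(E_D)`, which is
  `x = L(E_D, 1) t² / (Ω ∏ c_v)`, is a rational number with odd denominator, and its numerator is odd
  if and only if `E_D(ℚ)` is finite and `Ш(E_D)` has no element of order two.  So the formula holds
  modulo two for all these `D`, and its 2-part holds, with a nonzero central value, for all the `D`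
  with a nonsingular matrix.

The proof.  Algebraic side: descent with the two isogenies of degree two and with the cocycles in the
kernel of one of them; a vector in the kernel of the matrix gives a nontrivial element of order two of
`Ш`, or a point of infinite order.  Analytic side: the modular symbols of `X_0(14)` modulo two are
given by Dedekind sums, and the sum of the central values over the divisors of `D` is computed modulo
the next power of two.
-/

set_option autoImplicit false

open NumberField NumberField.InfinitePlace IsDedekindDomain WeierstrassCurve MeasureTheory Filter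
  Topology Finset

namespace Pool.Agent.Results.MP_9c97e9_nt.TwoPartSplitPrimes

open scoped Classical

open Pool.Agent.TH841.NF.D (Sha)

/-- The quadratic twist `E_D` of `X_0(14)` (`D = 1` modulo `4`), with its global minimal equation
`y² + x y + y = x³ + ((D - 1)/4) x² + ((9 D² - 1)/2) x - (23 D³ + 1)/4`.  It is isomorphic to
`Y² = X (X² + 13 D X + 128 D²)` by `X = 4 (x - D)`, `Y = 4 (2 y + x + 1)`. -/
def twist (D : ℤ) : WeierstrassCurve ℤ :=
  ⟨1, (D - 1) / 4, 1, (9 * D ^ 2 - 1) / 2, -((23 * D ^ 3 + 1) / 4)⟩

/-- The curve given by the equation of `W` over the ring `R`. -/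
abbrev base (W : WeierstrassCurve ℤ) (R : Type) [CommRing R] : WeierstrassCurve R :=
  W.map (Int.castRingHom R)

/-- The number of the affine points `(x, y)` over the ring `R`. -/
noncomputable def pts (W : WeierstrassCurve ℤ) (R : Type) [CommRing R] : ℕ :=
  Nat.card {P : R × R // (base W R).toAffine.Equation P.1 P.2}

section

variable {K : Type} [Field K] [NumberField K]

/-- `a_v = N v + 1 - #W(k_v)`, the points over the residue field `k_v` counted with the point at
infinity. -/
noncomputable def a (W : WeierstrassCurve ℤ) (v : HeightOneSpectrum (𝓞 K)) : ℤ :=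
  (Ideal.absNorm v.asIdeal : ℤ) - pts W (𝓞 K ⧸ v.asIdeal)

/-- The Euler factor of `L(W/K, s)` at `v` : `(1 - a_v N v^(-s) + N v^(1 - 2 s))⁻¹` if the
discriminant is a unit at `v`, and `(1 - a_v N v^(-s))⁻¹` otherwise. -/
noncomputable def factor (W : WeierstrassCurve ℤ) (s : ℂ) (v : HeightOneSpectrum (𝓞 K)) : ℂ :=
  (1 - (a W v : ℂ) * (Ideal.absNorm v.asIdeal : ℂ) ^ (-s) +
    if ((W.Δ : ℤ) : 𝓞 K) ∈ v.asIdeal then 0 else (Ideal.absNorm v.asIdeal : ℂ) ^ (1 - 2 * s))⁻¹

/-- The equation is minimal at the finite place `v` of `K`: no change of variables over `K` that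
keeps the coefficients integral at `v` decreases the valuation of the discriminant. -/
def MinimalAt (W : WeierstrassCurve ℤ) (v : HeightOneSpectrum (𝓞 K)) : Prop :=
  ∀ C : VariableChange K, v.valuation K (C • base W K).a₁ ≤ 1 →
    v.valuation K (C • base W K).a₂ ≤ 1 → v.valuation K (C • base W K).a₃ ≤ 1 →
    v.valuation K (C • base W K).a₄ ≤ 1 → v.valuation K (C • base W K).a₆ ≤ 1 →
    v.valuation K (C • base W K).Δ ≤ v.valuation K (base W K).Δ

/-- `E⁰(K_v)`, the group of the points of `W` over the completion `K_v` with nonsingular reduction: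
the points `(x, y)` where `x` is not integral, or one of the partial derivatives of
`y² + a₁ x y + a₃ y - x³ - a₂ x² - a₄ x - a₆` is a unit at `(x, y)`, and the point at infinity. -/
noncomputable def nonsing (W : WeierstrassCurve ℤ) (v : HeightOneSpectrum (𝓞 K)) :
    AddSubgroup (base W (v.adicCompletion K)).toAffine.Point :=
  AddSubgroup.closure {P | ∀ x y h, P = Affine.Point.some x y h →
    1 < Valued.v x ∨ Valued.v (W.a₁ * y - (3 * x ^ 2 + 2 * W.a₂ * x + W.a₄)) = 1 ∨
      Valued.v (2 * y + W.a₁ * x + W.a₃) = 1}

/-- The Tamagawa number `c_v = [E(K_v) : E⁰(K_v)]` of a minimal equation. -/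
noncomputable def c (W : WeierstrassCurve ℤ) (v : HeightOneSpectrum (𝓞 K)) : ℕ :=
  (nonsing W v).index

end

section

variable (K : Type) [Field K] [NumberField K]

/-- The product of the Tamagawa numbers. -/
noncomputable def Tam (W : WeierstrassCurve ℤ) : ℕ := ∏ᶠ v : HeightOneSpectrum (𝓞 K), c W v

/-- The torsion points over `K`. -/
def tors (W : WeierstrassCurve ℤ) : Set (base W K).toAffine.Point := {P | ∃ n : ℕ, 0 < n ∧ n • P = 0}

/-- The rank of the group of the points over `K`. -/
noncomputable def rank (W : WeierstrassCurve ℤ) : ℕ := Module.finrank ℤ (base W K).toAffine.Point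

end

/-- `4 x³ + b₂ x² + 2 b₄ x + b₆ = (2 y + a₁ x + a₃)²`, where `b₂ = a₁² + 4 a₂`,
`b₄ = 2 a₄ + a₁ a₃`, `b₆ = a₃² + 4 a₆`. -/
def cubic (W : WeierstrassCurve ℤ) {R : Type} [CommRing R] (x : R) : R :=
  4 * x ^ 3 + W.b₂ * x ^ 2 + 2 * W.b₄ * x + W.b₆

/-- `Ω = ∫_{W(ℝ)} |ω|` with `ω = dx / (2 y + a₁ x + a₃)`, as an integral over `x`: two real points lie
over each `x` with `cubic x > 0`. -/
noncomputable def realPeriod (W : WeierstrassCurve ℤ) : ℝ :=
  2 * ∫ x in {x : ℝ | 0 < cubic W x}, 1 / √(cubic W x)

/-- The rank is zero and the Tate-Shafarevich group over `ℚ` has no element of order two. -/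
def RankShaTrivial (W : WeierstrassCurve ℤ) : Prop :=
  rank ℚ W = 0 ∧ ∀ x : Sha (base W ℚ), 2 • x = 0 → x = 0

/-- The inert primes. -/
def Inert (q : ℕ) : Prop := q.Prime ∧ q % 8 = 5 ∧ (q % 7 = 3 ∨ q % 7 = 5 ∨ q % 7 = 6)

/-- The split primes. -/
def Split (p : ℕ) : Prop := p.Prime ∧ p % 8 = 1 ∧ (p % 7 = 1 ∨ p % 7 = 2 ∨ p % 7 = 4)

/-- The residue symbol, written additively: `0` for the squares and `1` for the other elements. -/
noncomputable def ns {F : Type} [Mul F] (x : F) : ZMod 2 := if IsSquare x then 0 else 1

/-- The local symbol of `m` at the split prime `p`: `0` if `y⁴ + 13 m y² + 128 m²` has a root modulo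
`p`, and `1` otherwise. -/
noncomputable def nr (m p : ℕ) : ZMod 2 :=
  if ∃ y : ZMod p, y ^ 4 + 13 * m * y ^ 2 + 128 * m ^ 2 = 0 then 0 else 1

/-- The matrix of `m` and `P`: the entry at `(j, i)` is the residue symbol of `i` modulo `j` if
`i ≠ j`, and the diagonal entry at `j` is the local symbol of `m` at `j` plus the sum of the residue
symbols modulo `j` of the other primes of `P`.  (For the graph on `P` in which two primes are joined if
they are not squares modulo each other, it is the Laplacian plus a diagonal matrix.) -/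
noncomputable def matrix (P : Finset ℕ) (m : ℕ) : Matrix P P (ZMod 2) := Matrix.of fun j i =>
  if i = j then nr m j + ∑ l ∈ P.erase j, ns ((l : ℕ) : ZMod (j : ℕ)) else ns ((i : ℕ) : ZMod (j : ℕ))

/-- **Main theorem.** Let `T` be a finite set of inert primes and `P` a finite set of split primes, let
`m` be the product of the primes in `T`, and let `E_D` be the twist by `D = m ∏ P` of `X_0(14)`.

(1) The rank of `E_D(ℚ)` is zero and `Ш(E_D)` has no element of order two if and only if the matrix of
`m` and `P` is nonsingular.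
(2) There are infinitely many inert primes `q`, not in `T`, such that the matrix of `q m` and `P` is
nonsingular.
(3) Let `P` have at most two elements.  Then the equation is minimal at all the primes, almost all the
Tamagawa numbers are `1`, and the period, the product of the Tamagawa numbers and the number of the
torsion points are positive.  The `L`-function is an entire function `L`, and
`L(1) t² = x Ω ∏ c_v` with a rational number `x` whose denominator is odd.  The numerator of `x` is odd
if and only if the rank is zero and `Ш(E_D)` has no element of order two. -/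
theorem result (T P : Finset ℕ) (hT : ∀ q ∈ T, Inert q) (hP : ∀ p ∈ P, Split p)
    (m : ℕ) (hm : m = ∏ q ∈ T, q) (D : ℤ) (hD : D = ((m * ∏ p ∈ P, p : ℕ) : ℤ)) :
    ((matrix P m).det ≠ 0 ↔ RankShaTrivial (twist D)) ∧
    {q : ℕ | Inert q ∧ q ∉ T ∧ (matrix P (q * m)).det ≠ 0}.Infinite ∧
    (P.card ≤ 2 →
      (∀ v : HeightOneSpectrum (𝓞 ℚ), MinimalAt (twist D) v) ∧
      {v : HeightOneSpectrum (𝓞 ℚ) | c (twist D) v ≠ 1}.Finite ∧
      0 < realPeriod (twist D) ∧ 0 < Tam ℚ (twist D) ∧ 0 < Nat.card (tors ℚ (twist D)) ∧
      ∃ (L : ℂ → ℂ) (x : ℚ), Differentiable ℂ L ∧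
        (∀ s : ℂ, 3 / 2 < s.re → HasProd (factor (K := ℚ) (twist D) s) (L s)) ∧
        L 1 * (Nat.card (tors ℚ (twist D)) : ℂ) ^ 2 =
          x * (realPeriod (twist D) : ℂ) * (Tam ℚ (twist D) : ℂ) ∧
        Odd x.den ∧ (Odd x.num ↔ RankShaTrivial (twist D))) := by
  subst hm hD
  have h1 : (matrix P (∏ q ∈ T, q)).det ≠ 0 ↔
      RankShaTrivial (twist (((∏ q ∈ T, q) * ∏ p ∈ P, p : ℕ) : ℤ)) :=
    Pool.Agent.W2helper41.X.crit hP hT
  refine ⟨h1, ?_, fun hc => ?_⟩
  · refine (Pool.Agent.W2helper41.X.infinite_det hP hT).mono ?_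
    rintro q ⟨hq, hqT, hdet⟩
    rw [prod_insert hqT] at hdet
    exact ⟨hq, hqT, hdet⟩
  · obtain ⟨a1, a2, a3, a4, a5, L, x, b1, b2, b3, b4, b5⟩ :=
      Pool.Agent.W2helper41.X.main Pool.Agent.W2helper41.X.parts hP hT hc
    refine ⟨a1, a2, a3, a4, a5, L, x, b1, b2, b3, ?_⟩
    exact Pool.Agent.W2helper41.X.odd_iff b4 (b5.trans h1)

end Pool.Agent.Results.MP_9c97e9_nt.TwoPartSplitPrimes
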